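import Pool.Agent.H5.FA.Defs

/-!
# [H5 FA EXC] arithmetic of an exceptional pair

`Aq p q = (q^p - 1)/(q - 1)` (`Nat.geomSum_eq`), `(p^q - 1)/(p - 1) = ∑_{k<q} p^k` divides `p^q - 1`.
* `exc_one`: if `p ∣ q - 1` then `Aq p q ≡ p ≡ 0` modulo `p`, so `p ∣ ∑_{k<q} p^k ≡ 1` modulo `p`, false.
* `exc_pow`: if `r = p` then `q^p ≡ 1` modulo `p`, so `q ≡ 1` modulo `p` (Fermat), excluded. `r ∣ Aq ∣ p^q - 1`: `p^q = 1` in `ZMod r`. `p ≠ q` primes: there are `c, k` with `c p = 1 + k q`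
  (`c, k : ℕ`, Bezout), so `(p^c)^p = p^(1 + k q) = p`; `y = p^c`.
-/

namespace H5FA

open Finset Polynomial

theorem exc_dvd (p q : ℕ) (hp : p.Prime) (hq : q.Prime)
    (h : (q ^ p - 1) / (q - 1) ∣ (p ^ q - 1) / (p - 1)) : Aq p q ∣ ∑ k ∈ range q, p ^ k := by
  rw [← Nat.geomSum_eq hq.two_le, ← Nat.geomSum_eq hp.two_le] at h
  exact h

theorem exc_one (p q : ℕ) (hp : p.Prime) (hq : q.Prime) (hpq : p < q)
    (h : (q ^ p - 1) / (q - 1) ∣ (p ^ q - 1) / (p - 1)) : ¬ (p : ℤ) ∣ (q : ℤ) - 1 := by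
  intro h1
  have h2 := exc_dvd p q hp hq h
  haveI : Fact p.Prime := ⟨hp⟩
  have hq1 : (q : ZMod p) = 1 := by
    have := (ZMod.intCast_zmod_eq_zero_iff_dvd ((q : ℤ) - 1) p).2 (by simpa using h1)
    push_cast at this
    exact sub_eq_zero.1 this
  have h3 : ((Aq p q : ℕ) : ZMod p) = 0 := by
    unfold Aq
    push_cast
    rw [hq1]
    simp
  have h4 : p ∣ ∑ k ∈ range q, p ^ k := ((ZMod.natCast_eq_zero_iff _ _).1 h3).trans h2
  have h5 : ((∑ k ∈ range q, p ^ k : ℕ) : ZMod p) = 0 := (ZMod.natCast_eq_zero_iff _ _).2 h4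
  have h6 : ((∑ k ∈ range q, p ^ k : ℕ) : ZMod p) = 1 := by
    push_cast
    obtain ⟨m, rfl⟩ : ∃ m, q = m + 1 := ⟨q - 1, by have := hq.pos; omega⟩
    rw [Finset.sum_range_succ']
    simp
  rw [h5] at h6
  exact zero_ne_one h6

theorem exc_pow (p q : ℕ) (hp : p.Prime) (hq : q.Prime) (hpq : p < q)
    (h : (q ^ p - 1) / (q - 1) ∣ (p ^ q - 1) / (p - 1)) (r : ℕ) (hr : r.Prime) (hrA : r ∣ Aq p q) :
    p ≠ r ∧ ∃ y : ZMod r, (p : ZMod r) = y ^ p := by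
  have h2 := exc_dvd p q hp hq h
  refine ⟨?_, ?_⟩
  · rintro rfl
    haveI : Fact p.Prime := ⟨hp⟩
    have h3 : ((Aq p q : ℕ) : ZMod p) = 0 := (ZMod.natCast_eq_zero_iff _ _).2 hrA
    have h4 : ((q : ZMod p) - 1) * ((Aq p q : ℕ) : ZMod p) = (q : ZMod p) ^ p - 1 := by
      unfold Aq
      push_cast
      rw [mul_comm, geom_sum_mul]
    rw [h3, mul_zero, ZMod.pow_card] at h4
    apply exc_one p q hp hq hpq h
    have : (((q : ℤ) - 1 : ℤ) : ZMod p) = 0 := by push_cast; exact h4.symm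
    exact_mod_cast (ZMod.intCast_zmod_eq_zero_iff_dvd ((q : ℤ) - 1) p).1 this
  · have h3 : ((∑ k ∈ range q, p ^ k : ℕ) : ZMod r) = 0 := (ZMod.natCast_eq_zero_iff _ _).2 (hrA.trans h2)
    have h4 : (p : ZMod r) ^ q = 1 := by
      have h5 : ((∑ k ∈ range q, p ^ k : ℕ) : ZMod r) * ((p : ZMod r) - 1) = (p : ZMod r) ^ q - 1 := by
        push_cast
        rw [geom_sum_mul]
      rw [h3, zero_mul] at h5
      exact (sub_eq_zero.1 h5.symm)
    have hcop : Nat.Coprime p q := (Nat.coprime_primes hp hq).2 (by omega)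
    obtain ⟨m, -, hm⟩ := Nat.exists_mul_mod_eq_one_of_coprime hcop hq.one_lt
    refine ⟨(p : ZMod r) ^ m, ?_⟩
    rw [← pow_mul, mul_comm m p]
    conv_rhs => rw [← Nat.div_add_mod (p * m) q]
    rw [hm, pow_add, pow_mul, h4, one_pow, one_mul, pow_one]

end H5FA
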