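import Pool.Agent.H5.FA.Prd

/-!
# [H5 FA ABV] the absolute value of `Vm`

`|σ z| = 1` (`(σ z)^p = 1`, `Complex.norm_eq_one_of_pow_eq_one`).
* `abs_Vm`: conjugation maps `σ (yy c) = q - σ z^(iv c)` to `q - σ z^(p - iv c) = σ (yy (p - c))` (`iv_sub`), so `|σ Vm|^2 = ∏_c σ(yy_c)^c ∏_c σ(yy_(p-c))^c = ∏_c σ(yy_c)^(c + p - c) = Aq^p`
  (`prod_yy`).
-/

namespace H5FA

open Finset Polynomial

variable {p : ℕ} {O : Type} [CommRing O] [IsDomain O] {z : O}

omit [IsDomain O] in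
private theorem abv_conj (hp : p.Prime) (hz : Cyc p z) (q : ℕ) (σ : O →+* ℂ) {c : ℕ}
    (hc : c ∈ Icc 1 (p - 1)) : (starRingEnd ℂ) (σ (yy p q c z)) = σ (yy p q (p - c) z) := by
  have hb := mem_Icc.1 (iv_facts hp hc).1
  have h2 := hp.two_le
  have hzp : (σ z) ^ p = 1 := by rw [← map_pow, hz.pow, map_one]
  have hn : ‖σ z‖ = 1 := Complex.norm_eq_one_of_pow_eq_one hzp hp.ne_zero
  have h3 : (σ z) ^ iv p c * (starRingEnd ℂ) (σ z) ^ iv p c = 1 := by
    rw [← mul_pow, Complex.mul_conj, Complex.normSq_eq_norm_sq, hn]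
    simp
  have h4 : (σ z) ^ iv p c * (σ z) ^ (p - iv p c) = 1 := by
    rw [← pow_add, Nat.add_sub_cancel' (by omega), hzp]
  have h5 : (σ z) ^ iv p c ≠ 0 := left_ne_zero_of_mul_eq_one h4
  have h6 : (starRingEnd ℂ) (σ z) ^ iv p c = (σ z) ^ (p - iv p c) :=
    mul_left_cancel₀ h5 (h3.trans h4.symm)
  unfold yy
  rw [iv_sub hp hc, map_sub, map_sub, map_sub, map_pow, map_pow, map_pow, map_natCast,
    map_natCast, h6]

theorem abs_Vm (hp : p.Prime) (hz : Cyc p z) (q : ℕ) (σ : O →+* ℂ) :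
    Complex.normSq (σ (Vm p q z)) = (Aq p q : ℝ) ^ p := by
  have h1 : (starRingEnd ℂ) (σ (Vm p q z)) = σ (Vp p q z) := by
    unfold Vm Vp
    rw [map_prod, map_prod, map_prod]
    refine Finset.prod_nbij' (fun c => p - c) (fun c => p - c) ?_ ?_ ?_ ?_ ?_
    · intro c hc
      rw [mem_Icc] at hc ⊢
      omega
    · intro c hc
      rw [mem_Icc] at hc ⊢
      omega
    · intro c hc
      rw [mem_Icc] at hc
      omega
    · intro c hc
      rw [mem_Icc] at hc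
      omega
    · intro c hc
      rw [map_pow, map_pow, map_pow, abv_conj hp hz q σ hc]
      rw [mem_Icc] at hc
      congr 1
      omega
  have h2 : ((Complex.normSq (σ (Vm p q z)) : ℝ) : ℂ) = (((Aq p q : ℝ) ^ p : ℝ) : ℂ) := by
    rw [← Complex.mul_conj, h1, ← map_mul, mul_comm, Vp_mul_Vm hp hz, map_pow, map_natCast]
    push_cast
    rfl
  exact Complex.ofReal_injective h2

end H5FA
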