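import Pool.Agent.H5.FA.Prd
import Pool.Agent.H5.FA.Abv

/-!
# [H5 FA GLO] from the local elements to `Vp`

`A = Aq p q > 0`, `A = ∏_{r ∈ A.primeFactors} r^(v_r)`, `v_r = A.factorization r`. Choose `G_r` with `Loc p q r z G_r`, `U = ∏_{r ∈ A.primeFactors} G_r^(v_r)`.
1. For each `r`: `r^(p v_r) ∣ G_r^(v_r) Vm ∣ U Vm`; the `r^(p v_r)` are pairwise coprime (coprime integers), so `A^p = ∏ r^(p v_r) ∣ U Vm` (`Finset.prod_dvd_of_coprime`). `U Vm = A^p ε`.
2. For `σ : O → ℂ`: `|σ U|^2 = ∏ (r^p)^(v_r) = A^p`, `|σ Vm|^2 = A^p` (`abs_Vm`), so `|σ ε|^2 A^(2p) = A^(2p)`, `|σ ε|^2 = 1`. By `hK`: `ε^p = ±1`.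
3. Multiply `U Vm = A^p ε` by `Vp`: `U A^p = A^p ε Vp` (`Vp_mul_Vm`), `A^p ≠ 0` in `O` (`bas_div` with `m = 0`): `U = ε Vp`.
4. `a = ∏ a_r^(v_r)`: `U ≡ a^p` modulo `(1-z)^(p+1)` (products of congruences).
-/

namespace H5FA

open Finset Polynomial

variable {p : ℕ} {O : Type} [CommRing O] [IsDomain O] {z : O}

theorem glob (hp : p.Prime) (hz : Cyc p z) (q : ℕ) (hq : 1 ≤ q)
    (hK : ∀ ε : O, (∀ σ : O →+* ℂ, Complex.normSq (σ ε) = 1) → ε ^ p = 1 ∨ ε ^ p = -1)
    (hL : ∀ r : ℕ, r.Prime → r ∣ Aq p q → ∃ G : O, Loc p q r z G) :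
    ∃ (ε : O) (a : ℤ), (ε ^ p = 1 ∨ ε ^ p = -1) ∧ (1 - z) ^ (p + 1) ∣ ε * Vp p q z - (a : O) ^ p := by
  classical
  choose! G hG using hL
  obtain ⟨A, hA⟩ : ∃ A, A = Aq p q := ⟨_, rfl⟩
  have hA0 : A ≠ 0 := by
    rw [hA]
    unfold Aq
    have h1 : q ^ 0 ≤ ∑ k ∈ range p, q ^ k :=
      single_le_sum (f := fun k => q ^ k) (fun i _ => Nat.zero_le _) (mem_range.2 hp.pos)
    rw [pow_zero] at h1
    omega
  obtain ⟨v, hv⟩ : ∃ v : ℕ → ℕ, v = fun r => A.factorization r := ⟨_, rfl⟩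
  have hprod : ∏ r ∈ A.primeFactors, r ^ v r = A := by
    have h1 := Nat.factorization_prod_pow_eq_self hA0
    rw [Finsupp.prod, Nat.support_factorization] at h1
    rw [hv]
    exact h1
  have hAO : (A : O) = ∏ r ∈ A.primeFactors, (r : O) ^ v r := by
    conv_lhs => rw [← hprod]
    push_cast
    rfl
  have hAne : (A : O) ≠ 0 := by
    intro h
    have h1 := bas_div hp hz (A : ℤ) 0 (by push_cast; rw [h])
    rw [zero_dvd_iff] at h1
    exact hA0 (by exact_mod_cast h1)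
  have hvdvd : ∀ r ∈ A.primeFactors, r ^ v r ∣ Aq p q := by
    intro r _
    rw [hv, ← hA]
    exact Nat.ordProj_dvd A r
  have hLoc : ∀ r ∈ A.primeFactors, Loc p q r z (G r) := by
    intro r hr
    have h1 := Nat.prime_of_mem_primeFactors hr
    have h2 := Nat.dvd_of_mem_primeFactors hr
    rw [hA] at h2
    exact hG r h1 h2
  obtain ⟨U, hU⟩ : ∃ U : O, U = ∏ r ∈ A.primeFactors, G r ^ v r := ⟨_, rfl⟩
  -- step 1
  have hdiv : (A : O) ^ p ∣ U * Vm p q z := by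
    have e1 : (A : O) ^ p = ∏ r ∈ A.primeFactors, (r : O) ^ (p * v r) := by
      rw [hAO, ← Finset.prod_pow]
      refine Finset.prod_congr rfl fun r _ => ?_
      rw [← pow_mul, mul_comm]
    rw [e1]
    apply Finset.prod_dvd_of_coprime
    · intro r hr s' hs hrs
      have h1 := Nat.prime_of_mem_primeFactors (Finset.mem_coe.1 hr)
      have h2 := Nat.prime_of_mem_primeFactors (Finset.mem_coe.1 hs)
      have h3 : Nat.Coprime r s' := (Nat.coprime_primes h1 h2).2 hrs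
      have h4 : IsCoprime (r : O) (s' : O) := h3.cast
      exact h4.pow
    · intro r hr
      have h1 := (hLoc r hr).dvd (v r) (hvdvd r hr)
      refine dvd_trans h1 (mul_dvd_mul ?_ dvd_rfl)
      rw [hU]
      exact Finset.dvd_prod_of_mem (fun r => G r ^ v r) hr
  obtain ⟨ε, hε⟩ := hdiv
  -- step 2
  have hnorm : ∀ σ : O →+* ℂ, Complex.normSq (σ ε) = 1 := by
    intro σ
    have hUσ : Complex.normSq (σ U) = (A : ℝ) ^ p := by
      rw [hU, map_prod, map_prod]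
      have e1 : (A : ℝ) = ∏ r ∈ A.primeFactors, (r : ℝ) ^ v r := by
        conv_lhs => rw [← hprod]
        push_cast
        rfl
      rw [e1, ← Finset.prod_pow]
      refine Finset.prod_congr rfl fun r hr => ?_
      rw [map_pow, map_pow, (hLoc r hr).abs σ, ← pow_mul, ← pow_mul, mul_comm]
    have h1 := congrArg (fun x => Complex.normSq (σ x)) hε
    simp only [map_mul, map_pow, map_natCast] at h1
    rw [hUσ, abs_Vm hp hz q σ, ← hA, Complex.normSq_natCast] at h1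
    have hA1 : (0 : ℝ) < A := by
      exact_mod_cast Nat.pos_of_ne_zero hA0
    have h2 : (A : ℝ) ^ p * (A : ℝ) ^ p ≠ 0 := by positivity
    have h3 : ((A : ℝ) * A) ^ p = (A : ℝ) ^ p * (A : ℝ) ^ p := mul_pow _ _ _
    rw [h3] at h1
    have h4 : (A : ℝ) ^ p * (A : ℝ) ^ p * Complex.normSq (σ ε) = (A : ℝ) ^ p * (A : ℝ) ^ p * 1 := by
      rw [mul_one]
      exact h1.symm
    exact mul_left_cancel₀ h2 h4
  -- step 3
  have hUε : U = ε * Vp p q z := by
    have h1 : (A : O) ^ p * U = (A : O) ^ p * (ε * Vp p q z) := by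
      calc (A : O) ^ p * U = U * Vm p q z * Vp p q z := by
            have := Vp_mul_Vm hp hz q
            rw [← hA] at this
            rw [← this]
            ring
        _ = (A : O) ^ p * ε * Vp p q z := by rw [hε]
        _ = _ := by ring
    exact mul_left_cancel₀ (pow_ne_zero _ hAne) h1
  -- step 4
  have hc : ∀ r ∈ A.primeFactors, ∃ a : ℤ, (1 - z) ^ (p + 1) ∣ G r - (a : O) ^ p := fun r hr => (hLoc r hr).cong
  choose! a ha using hc
  refine ⟨ε, ∏ r ∈ A.primeFactors, a r ^ v r, hK ε hnorm, ?_⟩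
  rw [← hUε, ← Ideal.mem_span_singleton, ← Ideal.Quotient.eq_zero_iff_mem, map_sub, sub_eq_zero, hU, map_prod]
  push_cast
  rw [map_pow, map_prod, ← Finset.prod_pow]
  refine Finset.prod_congr rfl fun r hr => ?_
  have h1 := ha r hr
  rw [← Ideal.mem_span_singleton, ← Ideal.Quotient.eq_zero_iff_mem, map_sub, sub_eq_zero, map_pow] at h1
  rw [map_pow, h1, map_pow, ← pow_mul, ← pow_mul, mul_comm]

end H5FA
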