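import Pool.Agent.H5.FA.Bas

/-!
# [H5 FA SMAP] the additive map `S : O → ℤ/p²`, `S (z^k) = k^p`

* `exists_S`: on `ℤ[X]` let `T f = ∑_k f_k k^p ∈ ZMod (p^2)`. `T (Φ g) = 0` for `Φ = ∑_{j<p} X^j`: it suffices for `g = X^l`: `∑_{j<p} (j + l)^p`; `k ↦ k^p` modulo `p^2`
  depends only on `k` modulo `p` (`(k + p m)^p ≡ k^p` mod `p^2`), so the sum is `∑_{j<p} j^p`, and `j^p + (p - j)^p ≡ 0` modulo `p^2` (`p` odd), so twice the sum is `0`
  (`∑ j^p = ∑ (p-j)^p`), `2` is a unit. By `ker`, `T f` depends only on `f(z)`; define `S x = T f` for a chosen `f` with `x = f(z)` (`gen`).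
* `S_int`: `S 1 = S (z^0) = 0^p = 0`. `S_smul`: additivity (`map_zsmul`).
* `S_pl`: `x ↦ S (p (1 - z)^2 x)` is additive, by `gen` it suffices for `x = z^k`: `S = p (k^p - 2 (k+1)^p + (k+2)^p)` and the bracket is
  `≡ k - 2(k+1) + (k+2) = 0` modulo `p` (Fermat), `p * p = 0`.
* `S_Ep`: `S (z^(b k)) = (b k)^p = b^p k^p`.
-/

namespace H5FA

open Finset Polynomial

variable {p : ℕ} {O : Type} [CommRing O] {z : O}

theorem smap_per (a b : ℤ) (h : (p : ℤ) ∣ a - b) : (a : ZMod (p ^ 2)) ^ p = (b : ZMod (p ^ 2)) ^ p := by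
  have h1 := dvd_sub_pow_of_dvd_sub h 1
  rw [pow_one] at h1
  have h2 : (((a ^ p - b ^ p : ℤ)) : ZMod (p ^ 2)) = 0 := by
    rw [ZMod.intCast_zmod_eq_zero_iff_dvd]
    push_cast
    exact h1
  push_cast at h2
  exact sub_eq_zero.1 h2

theorem smap_shift (l : ℕ) : ∑ j ∈ range p, ((j + l : ℕ) : ZMod (p ^ 2)) ^ p = ∑ j ∈ range p, (j : ZMod (p ^ 2)) ^ p := by
  induction l with
  | zero => simp
  | succ n ih =>
    rw [← ih]
    have h1 := Finset.sum_range_succ (fun j : ℕ => ((j + n : ℕ) : ZMod (p ^ 2)) ^ p) p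
    have h2 := Finset.sum_range_succ' (fun j : ℕ => ((j + n : ℕ) : ZMod (p ^ 2)) ^ p) p
    rw [h1] at h2
    have h3 : ((p + n : ℕ) : ZMod (p ^ 2)) ^ p = ((0 + n : ℕ) : ZMod (p ^ 2)) ^ p := by
      have := smap_per (p := p) ((p + n : ℕ) : ℤ) ((0 + n : ℕ) : ℤ) (by push_cast; exact ⟨1, by ring⟩)
      exact_mod_cast this
    rw [h3] at h2
    have h4 := add_right_cancel h2
    rw [h4]
    apply Finset.sum_congr rfl
    intro j _
    congr 2
    omega

theorem smap_zero (hp : p.Prime) (hp2 : 2 < p) : ∑ j ∈ range p, (j : ZMod (p ^ 2)) ^ p = 0 := by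
  have hodd : Odd p := by
    rcases hp.eq_two_or_odd' with h | h
    · omega
    · exact h
  obtain ⟨m, hm⟩ : ∃ m, p = m + 1 := ⟨p - 1, by omega⟩
  have h1 : ∑ j ∈ range p, (j : ZMod (p ^ 2)) ^ p = ∑ j ∈ range m, ((j + 1 : ℕ) : ZMod (p ^ 2)) ^ p := by
    conv_lhs => rw [show range p = range (m + 1) by rw [hm]]
    rw [Finset.sum_range_succ']
    simp [hp.ne_zero]
  have h2 : ∑ j ∈ range m, ((j + 1 : ℕ) : ZMod (p ^ 2)) ^ p = - ∑ j ∈ range m, ((j + 1 : ℕ) : ZMod (p ^ 2)) ^ p := by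
    conv_lhs => rw [← Finset.sum_range_reflect]
    rw [← Finset.sum_neg_distrib]
    apply Finset.sum_congr rfl
    intro j hj
    have hj' := mem_range.1 hj
    have h3 := smap_per (p := p) ((m - 1 - j + 1 : ℕ) : ℤ) (-((j + 1 : ℕ) : ℤ)) (by
      have : (m - 1 - j + 1 : ℕ) = p - (j + 1) := by omega
      rw [this, Nat.cast_sub (by omega)]
      exact ⟨1, by ring⟩)
    rw [Int.cast_natCast, Int.cast_neg, Int.cast_natCast, hodd.neg_pow] at h3
    exact h3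
  rw [h1]
  set A := ∑ j ∈ range m, ((j + 1 : ℕ) : ZMod (p ^ 2)) ^ p
  have h4 : (2 : ZMod (p ^ 2)) * A = 0 := by linear_combination h2
  have hu : IsUnit (2 : ZMod (p ^ 2)) := by
    have := (ZMod.isUnit_iff_coprime 2 (p ^ 2)).2 (by
      apply Nat.Coprime.pow_right
      rw [Nat.coprime_comm, Nat.Prime.coprime_iff_not_dvd hp]
      intro h
      have := Nat.le_of_dvd (by norm_num) h
      omega)
    exact_mod_cast this
  exact (hu.mul_right_eq_zero).1 h4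

theorem exists_S (hp : p.Prime) (hp2 : 2 < p) (hz : Cyc p z) :
    ∃ S : O →+ ZMod (p ^ 2), ∀ k : ℕ, S (z ^ k) = (k : ZMod (p ^ 2)) ^ p := by
  let T : ℤ[X] →ₗ[ℤ] ZMod (p ^ 2) := Polynomial.lsum (fun k => LinearMap.toSpanSingleton ℤ (ZMod (p ^ 2)) ((k : ZMod (p ^ 2)) ^ p))
  have hTm : ∀ (k : ℕ) (a : ℤ), T (monomial k a) = (a : ZMod (p ^ 2)) * (k : ZMod (p ^ 2)) ^ p := by
    intro k a
    show (monomial k a).sum _ = _
    rw [Polynomial.sum_monomial_index]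
    · simp
    · simp
  have hTX : ∀ k : ℕ, T (X ^ k) = (k : ZMod (p ^ 2)) ^ p := by
    intro k
    rw [X_pow_eq_monomial, hTm]
    simp
  have hPhi : ∀ g : ℤ[X], T ((∑ k ∈ range p, X ^ k) * g) = 0 := by
    intro g
    induction g using Polynomial.induction_on' with
    | add f g hf hg => rw [mul_add, map_add, hf, hg, add_zero]
    | monomial l a =>
      rw [Finset.sum_mul, map_sum]
      have : ∀ k ∈ range p, T (X ^ k * monomial l a) = (a : ZMod (p ^ 2)) * ((k + l : ℕ) : ZMod (p ^ 2)) ^ p := by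
        intro k _
        rw [X_pow_mul_monomial, hTm, add_comm l k]
      rw [Finset.sum_congr rfl this, ← Finset.mul_sum, smap_shift, smap_zero hp hp2, mul_zero]
  have well : ∀ f g : ℤ[X], aeval z f = aeval z g → T f = T g := by
    intro f g h
    have h1 : aeval z (f - g) = 0 := by rw [map_sub, h, sub_self]
    obtain ⟨c, hc⟩ := hz.ker _ h1
    have h2 := hPhi c
    rw [← hc, map_sub] at h2
    exact sub_eq_zero.1 h2
  refine ⟨{ toFun := fun x => T (Classical.choose (hz.gen x)), map_zero' := ?_, map_add' := ?_ }, ?_⟩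
  · have h := Classical.choose_spec (hz.gen 0)
    rw [well _ 0 (by rw [← h, map_zero]), map_zero]
  · intro x y
    have h1 := Classical.choose_spec (hz.gen x)
    have h2 := Classical.choose_spec (hz.gen y)
    have h3 := Classical.choose_spec (hz.gen (x + y))
    rw [← map_add]
    apply well
    rw [map_add, ← h1, ← h2, ← h3]
  · intro k
    show T (Classical.choose (hz.gen (z ^ k))) = _
    have h := Classical.choose_spec (hz.gen (z ^ k))
    rw [well _ (X ^ k) (by rw [← h]; simp), hTX]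

theorem S_smul (S : O →+ ZMod (p ^ 2)) (n : ℤ) (x : O) : S ((n : O) * x) = (n : ZMod (p ^ 2)) * S x := by
  have := map_zsmul S n x
  rw [zsmul_eq_mul, zsmul_eq_mul] at this
  exact this

theorem S_int (hp : p.Prime) (S : O →+ ZMod (p ^ 2)) (hS : ∀ k : ℕ, S (z ^ k) = (k : ZMod (p ^ 2)) ^ p) (n : ℤ) :
    S (n : O) = 0 := by
  have h := S_smul S n (z ^ 0)
  rw [hS 0, pow_zero, mul_one] at h
  rw [h]
  simp [hp.ne_zero]

theorem S_pl (hp : p.Prime) (hz : Cyc p z) (S : O →+ ZMod (p ^ 2))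
    (hS : ∀ k : ℕ, S (z ^ k) = (k : ZMod (p ^ 2)) ^ p) (x : O) : S ((p : O) * (1 - z) ^ 2 * x) = 0 := by
  haveI : Fact p.Prime := ⟨hp⟩
  have hmon : ∀ k : ℕ, S ((p : O) * (1 - z) ^ 2 * z ^ k) = 0 := by
    intro k
    have e : (p : O) * (1 - z) ^ 2 * z ^ k = ((p : ℤ) : O) * z ^ k + ((-2 * p : ℤ) : O) * z ^ (k + 1) + ((p : ℤ) : O) * z ^ (k + 2) := by
      push_cast
      ring
    rw [e, map_add, map_add, S_smul, S_smul, S_smul, hS, hS, hS]
    have h1 : (p : ℤ) ∣ (k : ℤ) ^ p - 2 * ((k + 1 : ℕ) : ℤ) ^ p + ((k + 2 : ℕ) : ℤ) ^ p := by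
      rw [← ZMod.intCast_zmod_eq_zero_iff_dvd]
      push_cast
      rw [ZMod.pow_card, ZMod.pow_card, ZMod.pow_card]
      ring
    have h2 : ((p : ℤ) ^ 2) ∣ (p : ℤ) * ((k : ℤ) ^ p - 2 * ((k + 1 : ℕ) : ℤ) ^ p + ((k + 2 : ℕ) : ℤ) ^ p) := by
      rw [pow_two]
      exact mul_dvd_mul_left _ h1
    have h3 : (((p : ℤ) * ((k : ℤ) ^ p - 2 * ((k + 1 : ℕ) : ℤ) ^ p + ((k + 2 : ℕ) : ℤ) ^ p) : ℤ) : ZMod (p ^ 2)) = 0 := by
      rw [ZMod.intCast_zmod_eq_zero_iff_dvd]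
      push_cast
      push_cast at h2
      exact h2
    rw [← h3]
    push_cast
    ring
  obtain ⟨f, rfl⟩ := hz.gen x
  induction f using Polynomial.induction_on' with
  | add f g hf hg => rw [map_add, mul_add, map_add, hf, hg, add_zero]
  | monomial n a =>
    have e : (p : O) * (1 - z) ^ 2 * aeval z (monomial n a) = (a : O) * ((p : O) * (1 - z) ^ 2 * z ^ n) := by
      rw [aeval_monomial]
      simp only [algebraMap_int_eq, eq_intCast]
      ring
    rw [e, S_smul, hmon, mul_zero]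

theorem S_Ep (S : O →+ ZMod (p ^ 2)) (hS : ∀ k : ℕ, S (z ^ k) = (k : ZMod (p ^ 2)) ^ p) (q b : ℕ) :
    S (Ep p q (z ^ b)) = (b : ZMod (p ^ 2)) ^ p *
      ∑ k ∈ Ico 1 p, (ek p k : ZMod (p ^ 2)) * (q : ZMod (p ^ 2)) ^ (p - k) * (k : ZMod (p ^ 2)) ^ p := by
  unfold Ep
  rw [map_sum, Finset.mul_sum]
  apply Finset.sum_congr rfl
  intro k _
  have e : (ek p k : O) * (q : O) ^ (p - k) * (z ^ b) ^ k = ((ek p k * (q : ℤ) ^ (p - k) : ℤ) : O) * z ^ (b * k) := by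
    push_cast
    rw [pow_mul]
  rw [e, S_smul, hS]
  push_cast
  ring

end H5FA
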