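import Pool.Agent.H5.FA.Kaa
import Pool.Agent.H5.FA.Smap

/-!
# [H5 FA KA] the congruence in `ℤ/p²`

* `ka`: write `l = 1 - z`, `b_c = iv p c`, `e0 = Ep p q (1 : ℤ)` (an integer), `B = q^p - 1 - p e0`. `Ep(z^(b_c)) = e0 + l^2 δ_c`; `yy_c^p = (q - z^(b_c))^p = q^p - 1 - p Ep(z^(b_c)) = B - p l^2 δ_c`.
  So `Vp^p = ∏_c (B - p l^2 δ_c)^(p-c) ≡ B^N - p l^2 B^(N-1) ∑_c (p-c) δ_c` modulo `p^2 l^4`, `N = ∑_c (p-c) = p (p-1)/2 ≥ 1`.
  `(ε Vp)^p ≡ a^(p^2)` modulo `p l^(p+1)` (if `l^(p+1) ∣ x - y` then `p l^(p+1) ∣ x^p - y^p`: `x = y + l^(p+1) u`, binomial; `l^(2(p+1))` is divisible by `p l^(p+1)` as `p ∣ l^(p-1)`·unit: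
  `bas_p` gives `p = v l^(p-1)`; one needs `l^(p+1) ∣ ... `: `l^(2p+2) = l^(p+1) l^(p+1)` and `l^(p-1)` is `p` times a unit because `v` is a unit modulo...; safer: `v` is a unit of `O`:
  `v = ∏_k (1 + ... + z^(k-1))` and each factor `(1 - z^k)/(1 - z)` is a unit; or avoid it: use the modulus `p l^2` for `x - y` in the form `x = y + p l^2 u`: see the note below).
  NOTE: `l^(p+1) ∣ x` implies `p l^2 ∣ x` because `l^(p-1)` and `p` are associated (`lam_assoc`, to be proved here: `1 - z^k` is associated to `1 - z`, `∏_k (1 - z^k) = p`). So from now on: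
  `ε Vp = a^p + p l^2 u`, hence `(ε Vp)^p = a^(p^2) + p^2 l^2 u'` (binomial: the linear term has `p * p l^2`, the others `(p l^2)^2`).
  `ε^p = ±1`: `Vp^p = m + p^2 l^2 u''`, `m = ± a^(p^2)` an integer. Comparing: `B^N - m = p l^2 (B^(N-1) ∑ (p-c) δ_c + p u''')`; so `p ∣ B^N - m` in `O`, hence in `ℤ` (`bas_div`), `B^N - m = p m'`,
  and (cancel `p`) `m' = B^(N-1) ∑_c (p-c) l^2 δ_c + p l^2 u'''`. Apply `S`: `0 = B^(N-1) ∑_c (p-c) (S(Ep(z^(b_c))) - 0)` (`S_int`, `S_pl`, `S_smul`), and `S(Ep(z^(b_c))) = b_c^p Σ`,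
  `Σ = ∑_k ek q^(p-k) k^p` (`S_Ep`). `B ≡ q - 1` modulo `p` and `∑_c (p-c) b_c^p ≡ - ∑_c c b_c ≡ -(p-1) = 1` modulo `p` are units of `ZMod (p^2)`, so `Σ = 0`.
-/

namespace H5FA

open Finset Polynomial

variable {p : ℕ} {O : Type} [CommRing O] {z : O}

/-- `P = B^N + t E + t² w` with `B E = B^N D`. -/
def KaR (B t P : O) (N : ℕ) (D : O) : Prop :=
  ∃ E w : O, P = B ^ N + t * E + t ^ 2 * w ∧ B * E = B ^ N * D

theorem ka_one (B t : O) : KaR B t 1 0 0 := ⟨0, 0, by ring, by ring⟩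

theorem ka_mul {B t P P' : O} {N N' : ℕ} {D D' : O} (h : KaR B t P N D) (h' : KaR B t P' N' D') :
    KaR B t (P * P') (N + N') (D + D') := by
  obtain ⟨E, w, h1, h2⟩ := h
  obtain ⟨E', w', h1', h2'⟩ := h'
  refine ⟨B ^ N * E' + B ^ N' * E, E * E' + B ^ N * w' + B ^ N' * w + t * (E * w' + E' * w) + t ^ 2 * (w * w'), ?_, ?_⟩
  · rw [h1, h1', pow_add]
    ring
  · rw [pow_add]
    linear_combination (B ^ N) * h2' + (B ^ N') * h2

theorem ka_lin (B t δ : O) : KaR B t (B + t * δ) 1 δ := ⟨δ, 0, by ring, by ring⟩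

theorem ka_pow {B t P : O} {N : ℕ} {D : O} (h : KaR B t P N D) (k : ℕ) : KaR B t (P ^ k) (k * N) (k * D) := by
  induction k with
  | zero =>
    have := ka_one B t
    simpa using this
  | succ n ih =>
    have := ka_mul ih h
    rw [pow_succ]
    convert this using 1
    · ring
    · push_cast
      ring

theorem ka_prod {ι : Type} (s : Finset ι) (B t : O) (P : ι → O) (N : ι → ℕ) (D : ι → O)
    (h : ∀ i ∈ s, KaR B t (P i) (N i) (D i)) : KaR B t (∏ i ∈ s, P i) (∑ i ∈ s, N i) (∑ i ∈ s, D i) := by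
  classical
  induction s using Finset.induction_on with
  | empty =>
    have := ka_one B t
    simpa using this
  | insert a s ha ih =>
    rw [Finset.prod_insert ha, Finset.sum_insert ha, Finset.sum_insert ha]
    exact ka_mul (h a (mem_insert_self _ _)) (ih fun i hi => h i (mem_insert_of_mem hi))

theorem ka_pp (A y : O) (n : ℕ) : ∃ s : O, (A + y) ^ n = A ^ n + (n : O) * A ^ (n - 1) * y + y ^ 2 * s := by
  obtain ⟨s, hs⟩ := (Polynomial.powAddExpansion A y n)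
  exact ⟨s, by rw [hs]; ring⟩

theorem ka_M (hp : p.Prime) : ¬ (p : ℤ) ∣ ∑ c ∈ Icc 1 (p - 1), ((p : ℤ) - c) * (iv p c : ℤ) ^ p := by
  have : Fact p.Prime := ⟨hp⟩
  rw [← ZMod.intCast_zmod_eq_zero_iff_dvd]
  push_cast
  have h1 : ∑ c ∈ Icc 1 (p - 1), ((p : ZMod p) - c) * (iv p c : ZMod p) ^ p = ∑ c ∈ Icc 1 (p - 1), (-1 : ZMod p) := by
    apply Finset.sum_congr rfl
    intro c hc
    rw [ZMod.pow_card, ZMod.natCast_self]
    have h2 := (iv_facts hp hc).2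
    have h3 : ((c * iv p c : ℕ) : ZMod p) = 1 := by
      rw [← Nat.div_add_mod (c * iv p c) p, h2]
      push_cast
      rw [ZMod.natCast_self]
      ring
    push_cast at h3
    linear_combination (-1 : ZMod p) * h3
  rw [h1, Finset.sum_const, Nat.card_Icc]
  have h2 : p - 1 + 1 - 1 = p - 1 := by omega
  rw [h2, nsmul_eq_mul, Nat.cast_sub hp.one_lt.le, ZMod.natCast_self]
  simp

theorem ka_unit (hp : p.Prime) (n : ℤ) (h : ¬ (p : ℤ) ∣ n) : IsUnit (n : ZMod (p ^ 2)) := by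
  have h1 : IsCoprime n ((p ^ 2 : ℕ) : ℤ) := by
    push_cast
    apply IsCoprime.pow_right
    rw [isCoprime_comm]
    exact ((Nat.prime_iff_prime_int.1 hp).coprime_iff_not_dvd).2 h
  obtain ⟨u, v, huv⟩ := h1
  have h2 := congrArg (Int.cast : ℤ → ZMod (p ^ 2)) huv
  rw [Int.cast_add, Int.cast_mul, Int.cast_mul, Int.cast_natCast, ZMod.natCast_self, mul_zero, add_zero,
    Int.cast_one] at h2
  exact IsUnit.of_mul_eq_one_right _ h2

theorem ka_B (hp : p.Prime) (q : ℕ) (hq1 : ¬ (p : ℤ) ∣ (q : ℤ) - 1) (e0 : ℤ) :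
    ¬ (p : ℤ) ∣ (q : ℤ) ^ p - 1 - p * e0 := by
  have : Fact p.Prime := ⟨hp⟩
  intro h
  apply hq1
  rw [← ZMod.intCast_zmod_eq_zero_iff_dvd] at h ⊢
  push_cast at h ⊢
  rw [ZMod.pow_card, ZMod.natCast_self] at h
  linear_combination h

theorem ka [IsDomain O] (hp : p.Prime) (hp2 : 2 < p) (hz : Cyc p z) (q : ℕ) (hq1 : ¬ (p : ℤ) ∣ (q : ℤ) - 1)
    (S : O →+ ZMod (p ^ 2)) (hS : ∀ k : ℕ, S (z ^ k) = (k : ZMod (p ^ 2)) ^ p) (ε : O) (a : ℤ)
    (hε : ε ^ p = 1 ∨ ε ^ p = -1) (h : (1 - z) ^ (p + 1) ∣ ε * Vp p q z - (a : O) ^ p) :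
    ∑ k ∈ Ico 1 p, (ek p k : ZMod (p ^ 2)) * (q : ZMod (p ^ 2)) ^ (p - k) * (k : ZMod (p ^ 2)) ^ p = 0 := by
  set Sg := ∑ k ∈ Ico 1 p, (ek p k : ZMod (p ^ 2)) * (q : ZMod (p ^ 2)) ^ (p - k) * (k : ZMod (p ^ 2)) ^ p with hSg
  set e0 : ℤ := Ep p q (1 : ℤ) with he0
  have he0' : Ep p q (1 : O) = (e0 : O) := by
    rw [he0]
    unfold Ep
    push_cast
    rfl
  set B : ℤ := (q : ℤ) ^ p - 1 - p * e0 with hB
  -- the expansion of `Vp ^ p`
  choose δ hδ using fun b : ℕ => Ep_near (z := z) hp hp2 hz q hq1 b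
  have hV : KaR (B : O) ((p : O) * (1 - z) ^ 2) (Vp p q z ^ p) (∑ c ∈ Icc 1 (p - 1), (p - c) * 1)
      (∑ c ∈ Icc 1 (p - 1), ((p - c : ℕ) : O) * (- δ (iv p c))) := by
    unfold Vp
    rw [← Finset.prod_pow]
    apply ka_prod
    intro c hc
    rw [← pow_mul, mul_comm (p - c) p, pow_mul]
    apply ka_pow
    have h1 : yy p q c z ^ p = (B : O) + ((p : O) * (1 - z) ^ 2) * (- δ (iv p c)) := by
      unfold yy
      rw [pow_Ep hp hp2, ← pow_mul, mul_comm (iv p c), pow_mul, hz.pow, one_pow, hB]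
      push_cast
      have := hδ (iv p c)
      rw [he0'] at this
      linear_combination (-(p : O)) * this
    rw [h1]
    exact ka_lin _ _ _
  obtain ⟨E, w, hV1, hV2⟩ := hV
  set N := ∑ c ∈ Icc 1 (p - 1), (p - c) * 1 with hN
  set D : O := ∑ c ∈ Icc 1 (p - 1), ((p - c : ℕ) : O) * (- δ (iv p c)) with hD
  -- the other side
  have hpl : (p : O) * (1 - z) ^ 2 ∣ (1 - z) ^ (p + 1) := by
    have h1 := (lam_assoc hp hz).dvd
    have h2 : (1 - z) ^ (p + 1) = (1 - z) ^ (p - 1) * (1 - z) ^ 2 := by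
      rw [← pow_add]
      congr 1
      omega
    rw [h2]
    exact mul_dvd_mul_right h1 _
  obtain ⟨u, hu⟩ := hpl.trans h
  have hu' : ε * Vp p q z = (a : O) ^ p + (p : O) * (1 - z) ^ 2 * u := by linear_combination hu
  obtain ⟨s, hs⟩ := ka_pp ((a : O) ^ p) ((p : O) * (1 - z) ^ 2 * u) p
  rw [← hu', mul_pow] at hs
  obtain ⟨m, u2, hm⟩ : ∃ m : ℤ, ∃ u2 : O, Vp p q z ^ p = (m : O) + (p : O) ^ 2 * (1 - z) ^ 2 * u2 := by
    rcases hε with h1 | h1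
    · refine ⟨(a ^ p) ^ p, ((a : O) ^ p) ^ (p - 1) * u + (1 - z) ^ 2 * u ^ 2 * s, ?_⟩
      rw [h1] at hs
      push_cast
      linear_combination hs
    · refine ⟨-(a ^ p) ^ p, -(((a : O) ^ p) ^ (p - 1) * u + (1 - z) ^ 2 * u ^ 2 * s), ?_⟩
      rw [h1] at hs
      push_cast
      linear_combination (-1 : O) * hs
  have hp0 : (p : O) ≠ 0 := by
    intro h0
    have h1 := bas_div hp hz p 0 (by rw [Int.cast_natCast, h0]; exact dvd_zero _)
    rw [zero_dvd_iff] at h1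
    exact hp.ne_zero (by exact_mod_cast h1)
  have hcmp : ((B ^ N - m : ℤ) : O) = (p : O) * ((1 - z) ^ 2 * (-E + (p : O) * (u2 - (1 - z) ^ 2 * w))) := by
    push_cast
    linear_combination (-1 : O) * hV1 + hm
  obtain ⟨m', hm'⟩ := bas_div hp hz (B ^ N - m) p
    ⟨(1 - z) ^ 2 * (-E + (p : O) * (u2 - (1 - z) ^ 2 * w)), by rw [hcmp, Int.cast_natCast]⟩
  have hm2 : (m' : O) = (1 - z) ^ 2 * (-E + (p : O) * (u2 - (1 - z) ^ 2 * w)) := by
    apply mul_left_cancel₀ hp0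
    rw [← hcmp, hm']
    push_cast
    ring
  have hkey : ((B * m' : ℤ) : O) = ((B ^ N : ℤ) : O) * (∑ c ∈ Icc 1 (p - 1), (((p - c : ℕ) : ℤ) : O) *
      (Ep p q (z ^ (iv p c)) - (e0 : O))) + (p : O) * (1 - z) ^ 2 * ((B : O) * (u2 - (1 - z) ^ 2 * w)) := by
    have h1 : (∑ c ∈ Icc 1 (p - 1), (((p - c : ℕ) : ℤ) : O) * (Ep p q (z ^ (iv p c)) - (e0 : O))) =
        (1 - z) ^ 2 * (-D) := by
      rw [hD, ← Finset.sum_neg_distrib, Finset.mul_sum]
      apply Finset.sum_congr rfl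
      intro c _
      rw [← he0', hδ (iv p c), Int.cast_natCast]
      ring
    rw [h1, Int.cast_mul, hm2]
    push_cast
    linear_combination (-(1 - z) ^ 2) * hV2
  have hS1 := congrArg S hkey
  rw [S_int hp S hS, map_add, S_pl hp hz S hS, add_zero, S_smul, map_sum] at hS1
  have hS2 : ∑ c ∈ Icc 1 (p - 1), S ((((p - c : ℕ) : ℤ) : O) * (Ep p q (z ^ (iv p c)) - (e0 : O))) =
      ((∑ c ∈ Icc 1 (p - 1), ((p : ℤ) - c) * (iv p c : ℤ) ^ p : ℤ) : ZMod (p ^ 2)) * Sg := by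
    rw [Int.cast_sum, Finset.sum_mul]
    apply Finset.sum_congr rfl
    intro c hc
    rw [S_smul, map_sub, S_int hp S hS, sub_zero, S_Ep S hS, ← hSg]
    have hc2 : c ≤ p := by
      rw [mem_Icc] at hc
      omega
    rw [Nat.cast_sub hc2]
    push_cast
    ring
  rw [hS2] at hS1
  have hu1 := (ka_unit hp _ (ka_M hp))
  have hu2 := (ka_unit hp _ (ka_B hp q hq1 e0)).pow N
  rw [← hB, ← Int.cast_pow] at hu2
  rw [← mul_assoc] at hS1
  exact ((hu2.mul hu1).mul_right_eq_zero.1 hS1.symm)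

end H5FA
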