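import Pool.Agent.H5.FA.Defs

/-!
# [H5 FA KB] elementary congruences modulo `p²`

* `kb`: `ek p k * k = (-1)^(k+1) C(p-1, k-1)` in `ℤ` (`k C(p,k) = p C(p-1,k-1)`: `Nat.succ_mul_choose_eq` / `Nat.add_one_mul_choose_eq`). So the sum is `∑_k (-1)^(k-1) C(p-1,k-1) k^(p-1) q^(p-k)`.
  `k^(p-1) = 1 + (k^(p-1) - 1)`, `p ∣ k^(p-1) - 1` (Fermat), `(-1)^(k-1) C(p-1,k-1) ≡ 1` modulo `p`; so modulo `p^2` it is
  `∑_k (-1)^(k-1) C(p-1,k-1) q^(p-k) + ∑_k (k^(p-1) - 1) q^(p-k)`, and the first sum is `(q - 1)^(p-1) - 1` (binomial theorem, the missing term `k = p` is `(-1)^(p-1) = 1`).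
* `uni`: let `M = (x-1)^(p-1) + ∑ (k^(p-1) - 1) x^(p-k) - 1`; `p ∣ M` (Fermat, `p ∤ x - 1`). For `x + p t`: `(x + p t - 1)^(p-1) ≡ (x-1)^(p-1) + (p-1) (x-1)^(p-2) p t ≡ (x-1)^(p-1) - p t (x-1)^(p-2)` modulo `p^2`, and
  `(k^(p-1) - 1) (x + p t)^(p-k) ≡ (k^(p-1) - 1) x^(p-k)`. So `Cg p (x + p t) ↔ p^2 ∣ M - p t (x-1)^(p-2) ↔ p ∣ M/p - t (x-1)^(p-2)`: exactly one `t < p`.
* `no_one`: if `p ∣ x - 1` then `p^2 ∣ (x-1)^(p-1)` (`p - 1 ≥ 2`) and the other terms are divisible by `p`, so the left side is divisible by `p`: not `≡ 1`.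
-/

namespace H5FA

open Finset Polynomial

theorem kb_choose (p : ℕ) (hp : p.Prime) (k : ℕ) (hk : k < p) : (((p - 1).choose k : ℕ) : ZMod p) = (-1) ^ k := by
  induction k with
  | zero => simp
  | succ n ih =>
    have ih' := ih (by omega)
    have h1 : p.choose (n + 1) = (p - 1).choose n + (p - 1).choose (n + 1) := by
      obtain ⟨m, rfl⟩ : ∃ m, p = m + 1 := ⟨p - 1, by have := hp.pos; omega⟩
      rw [Nat.choose_succ_succ]
      simp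
    have h2 : p ∣ p.choose (n + 1) := hp.dvd_choose_self (by omega) hk
    have h3 : ((p.choose (n + 1) : ℕ) : ZMod p) = 0 := (ZMod.natCast_eq_zero_iff _ _).2 h2
    rw [h1] at h3
    push_cast at h3
    rw [ih'] at h3
    rw [pow_succ]
    linear_combination h3

theorem kb_fermat (p : ℕ) (hp : p.Prime) (x : ℤ) (hx : ¬ (p : ℤ) ∣ x) : (p : ℤ) ∣ x ^ (p - 1) - 1 := by
  haveI : Fact p.Prime := ⟨hp⟩
  rw [← ZMod.intCast_zmod_eq_zero_iff_dvd]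
  push_cast
  have : (x : ZMod p) ≠ 0 := by
    intro h
    exact hx ((ZMod.intCast_zmod_eq_zero_iff_dvd _ _).1 h)
  rw [ZMod.pow_card_sub_one_eq_one this, sub_self]

theorem kb_nat_not (p : ℕ) (k : ℕ) (hk : k ∈ Icc 1 (p - 1)) : ¬ (p : ℤ) ∣ (k : ℤ) := by
  rw [mem_Icc] at hk
  intro h
  rw [Int.natCast_dvd_natCast] at h
  have := Nat.le_of_dvd (by omega) h
  omega

theorem kb_ek (p : ℕ) (hp : p.Prime) (k : ℕ) (h1 : 1 ≤ k) (hk : k < p) :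
    ek p k * (k : ℤ) = (-1) ^ (k + 1) * (((p - 1).choose (k - 1) : ℕ) : ℤ) := by
  have h2 : p ∣ p.choose k := hp.dvd_choose_self (by omega) hk
  have h3 : (p.choose k / p) * k = (p - 1).choose (k - 1) := by
    have e1 : p * (p.choose k / p) = p.choose k := Nat.mul_div_cancel' h2
    obtain ⟨m, rfl⟩ : ∃ m, p = m + 1 := ⟨p - 1, by omega⟩
    obtain ⟨j, rfl⟩ : ∃ j, k = j + 1 := ⟨k - 1, by omega⟩
    have e2 := Nat.add_one_mul_choose_eq m j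
    have e3 : (m + 1) * (((m + 1).choose (j + 1) / (m + 1)) * (j + 1)) = (m + 1) * m.choose j := by
      rw [← mul_assoc, e1]
      linarith
    have := Nat.eq_of_mul_eq_mul_left (by omega) e3
    simpa using this
  unfold ek
  rw [mul_assoc, ← h3]
  push_cast
  ring

theorem kb (p : ℕ) (hp : p.Prime) (hp2 : 2 < p) (q : ℕ)
    (h : ∑ k ∈ Ico 1 p, (ek p k : ZMod (p ^ 2)) * (q : ZMod (p ^ 2)) ^ (p - k) * (k : ZMod (p ^ 2)) ^ p = 0) :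
    Cg p q := by
  haveI : Fact p.Prime := ⟨hp⟩
  -- all in the integers
  have h0 : ((p ^ 2 : ℕ) : ℤ) ∣ ∑ k ∈ Ico 1 p, ek p k * (q : ℤ) ^ (p - k) * (k : ℤ) ^ p := by
    rw [← ZMod.intCast_zmod_eq_zero_iff_dvd]
    push_cast
    exact h
  have key : ∀ k ∈ Ico 1 p, ((p ^ 2 : ℕ) : ℤ) ∣ ek p k * (q : ℤ) ^ (p - k) * (k : ℤ) ^ p
      - ((-1) ^ (k + 1) * (((p - 1).choose (k - 1) : ℕ) : ℤ) * (q : ℤ) ^ (p - k)
        + ((k : ℤ) ^ (p - 1) - 1) * (q : ℤ) ^ (p - k)) := by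
    intro k hk
    have hk' := mem_Ico.1 hk
    have e1 := kb_ek p hp k hk'.1 hk'.2
    have e2 : (k : ℤ) ^ p = (k : ℤ) * (k : ℤ) ^ (p - 1) := by
      rw [← pow_succ']
      congr 1
      omega
    have d1 : (p : ℤ) ∣ (k : ℤ) ^ (p - 1) - 1 := kb_fermat p hp _ (kb_nat_not p k (mem_Icc.2 ⟨hk'.1, by omega⟩))
    have d2 : (p : ℤ) ∣ (-1) ^ (k + 1) * (((p - 1).choose (k - 1) : ℕ) : ℤ) - 1 := by
      rw [← ZMod.intCast_zmod_eq_zero_iff_dvd]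
      push_cast
      rw [kb_choose p hp (k - 1) (by omega), ← pow_add]
      have : k + 1 + (k - 1) = 2 * k := by omega
      rw [this, pow_mul]
      simp
    have d3 := mul_dvd_mul d2 d1
    have e3 : ek p k * (q : ℤ) ^ (p - k) * (k : ℤ) ^ p
      - ((-1) ^ (k + 1) * (((p - 1).choose (k - 1) : ℕ) : ℤ) * (q : ℤ) ^ (p - k)
        + ((k : ℤ) ^ (p - 1) - 1) * (q : ℤ) ^ (p - k)) = ((-1) ^ (k + 1) * (((p - 1).choose (k - 1) : ℕ) : ℤ) - 1) * ((k : ℤ) ^ (p - 1) - 1) * (q : ℤ) ^ (p - k) := by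
      rw [e2]
      linear_combination ((q : ℤ) ^ (p - k) * (k : ℤ) ^ (p - 1)) * e1
    rw [e3]
    push_cast
    rw [pow_two]
    exact d3.mul_right _
  have h1 := dvd_sub h0 (Finset.dvd_sum key)
  rw [← Finset.sum_sub_distrib] at h1
  have h2 : ∑ k ∈ Ico 1 p, (-1 : ℤ) ^ (k + 1) * (((p - 1).choose (k - 1) : ℕ) : ℤ) * (q : ℤ) ^ (p - k) = ((q : ℤ) - 1) ^ (p - 1) - 1 := by
    have hb : ((-1 : ℤ) + (q : ℤ)) ^ (p - 1) = ∑ m ∈ range (p - 1 + 1), (-1 : ℤ) ^ m * (q : ℤ) ^ (p - 1 - m) * (((p - 1).choose m : ℕ) : ℤ) := add_pow _ _ _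
    rw [Finset.sum_range_succ] at hb
    have hev : (-1 : ℤ) ^ (p - 1) = 1 := by
      apply Even.neg_one_pow
      have := hp.eq_two_or_odd
      rcases this with h | h
      · omega
      · exact Nat.even_iff.2 (by omega)
    rw [hev] at hb
    simp only [Nat.sub_self, pow_zero, mul_one, Nat.choose_self, Nat.cast_one] at hb
    have hs : ∑ k ∈ Ico 1 p, (-1 : ℤ) ^ (k + 1) * (((p - 1).choose (k - 1) : ℕ) : ℤ) * (q : ℤ) ^ (p - k)
        = ∑ m ∈ range (p - 1), (-1 : ℤ) ^ m * (q : ℤ) ^ (p - 1 - m) * (((p - 1).choose m : ℕ) : ℤ) := by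
      rw [Finset.sum_Ico_eq_sum_range]
      apply Finset.sum_congr rfl
      intro m hm
      have : 1 + m - 1 = m := by omega
      rw [this]
      have : p - (1 + m) = p - 1 - m := by omega
      rw [this]
      have : 1 + m + 1 = m + 2 := by omega
      rw [this, pow_add]
      norm_num
      ring
    rw [hs]
    have : ((q : ℤ) - 1) = (-1 : ℤ) + q := by ring
    rw [this, hb]
    ring
  have h3 : Icc 1 (p - 1) = Ico 1 p := by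
    ext k
    simp only [mem_Icc, mem_Ico]
    omega
  unfold Cg
  rw [h3]
  rw [Int.modEq_iff_dvd]
  have h4 : (1 : ℤ) - ((↑q - 1) ^ (p - 1) + ∑ k ∈ Ico 1 p, ((k : ℤ) ^ (p - 1) - 1) * (q : ℤ) ^ (p - k))
      = - ∑ k ∈ Ico 1 p, (ek p k * (q : ℤ) ^ (p - k) * (k : ℤ) ^ p - (ek p k * (q : ℤ) ^ (p - k) * (k : ℤ) ^ p
      - ((-1) ^ (k + 1) * (((p - 1).choose (k - 1) : ℕ) : ℤ) * (q : ℤ) ^ (p - k)
        + ((k : ℤ) ^ (p - 1) - 1) * (q : ℤ) ^ (p - k)))) := by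
    have : ∀ k ∈ Ico 1 p, (ek p k * (q : ℤ) ^ (p - k) * (k : ℤ) ^ p - (ek p k * (q : ℤ) ^ (p - k) * (k : ℤ) ^ p
      - ((-1) ^ (k + 1) * (((p - 1).choose (k - 1) : ℕ) : ℤ) * (q : ℤ) ^ (p - k)
        + ((k : ℤ) ^ (p - 1) - 1) * (q : ℤ) ^ (p - k)))) = ((-1) ^ (k + 1) * (((p - 1).choose (k - 1) : ℕ) : ℤ) * (q : ℤ) ^ (p - k)
        + ((k : ℤ) ^ (p - 1) - 1) * (q : ℤ) ^ (p - k)) := by
      intro k _
      ring
    rw [Finset.sum_congr rfl this, Finset.sum_add_distrib, h2]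
    ring
  rw [h4]
  push_cast at h1
  exact (dvd_neg.2 h1)

/-- the polynomial `M` -/
theorem kb_shift (p : ℕ) (hp : p.Prime) (hp2 : 2 < p) (x t : ℤ) :
    ((p : ℤ) ^ 2) ∣ ((x + p * t - 1) ^ (p - 1) + ∑ k ∈ Icc 1 (p - 1), ((k : ℤ) ^ (p - 1) - 1) * (x + p * t) ^ (p - k) - 1)
      - (((x - 1) ^ (p - 1) + ∑ k ∈ Icc 1 (p - 1), ((k : ℤ) ^ (p - 1) - 1) * x ^ (p - k) - 1) - p * t * (x - 1) ^ (p - 2)) := by
  have d1 : ((p : ℤ) ^ 2) ∣ (x + p * t - 1) ^ (p - 1) - (x - 1) ^ (p - 1) + p * t * (x - 1) ^ (p - 2) := by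
    have hb : (p * t + (x - 1)) ^ (p - 1) = ∑ m ∈ range (p - 1 + 1), (p * t) ^ m * (x - 1) ^ (p - 1 - m) * (((p - 1).choose m : ℕ) : ℤ) := add_pow _ _ _
    obtain ⟨j, hj⟩ : ∃ j, p = j + 3 := ⟨p - 3, by omega⟩
    have e1 : p - 1 + 1 = (j + 1) + 1 + 1 := by omega
    rw [e1, Finset.sum_range_succ', Finset.sum_range_succ'] at hb
    have e2 : (x + p * t - 1) = (p * t + (x - 1)) := by ring
    rw [e2, hb]
    have e3 : p - 1 - (0 + 1) = p - 2 := by omega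
    simp only [zero_add, pow_zero, one_mul, Nat.choose_zero_right, Nat.cast_one, mul_one, Nat.sub_zero, pow_one, Nat.choose_one_right]
    have e4 : ((p - 1 : ℕ) : ℤ) = p - 1 := by
      rw [Nat.cast_sub (by omega)]; simp
    have e5 : p - 1 - 1 = p - 2 := by omega
    rw [e5, e4]
    have e6 : (∑ m ∈ range (j + 1), (p * t) ^ (m + 1 + 1) * (x - 1) ^ (p - 1 - (m + 1 + 1)) * (((p - 1).choose (m + 1 + 1) : ℕ) : ℤ)
      + p * t * (x - 1) ^ (p - 2) * (p - 1) + (x - 1) ^ (p - 1)) - (x - 1) ^ (p - 1) + p * t * (x - 1) ^ (p - 2)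
      = (∑ m ∈ range (j + 1), (p * t) ^ (m + 1 + 1) * (x - 1) ^ (p - 1 - (m + 1 + 1)) * (((p - 1).choose (m + 1 + 1) : ℕ) : ℤ)) + (p : ℤ) ^ 2 * (t * (x - 1) ^ (p - 2)) := by
      ring
    rw [e6]
    apply dvd_add _ (dvd_mul_right _ _)
    apply Finset.dvd_sum
    intro m _
    apply Dvd.dvd.mul_right
    apply Dvd.dvd.mul_right
    rw [show m + 1 + 1 = 2 + m by ring, pow_add, mul_pow]
    exact (Dvd.intro _ rfl).mul_right _
  have d2 : ((p : ℤ) ^ 2) ∣ ∑ k ∈ Icc 1 (p - 1), (((k : ℤ) ^ (p - 1) - 1) * (x + p * t) ^ (p - k) - ((k : ℤ) ^ (p - 1) - 1) * x ^ (p - k)) := by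
    apply Finset.dvd_sum
    intro k hk
    have f1 := kb_fermat p hp _ (kb_nat_not p k hk)
    have f2 : (p : ℤ) ∣ (x + p * t) ^ (p - k) - x ^ (p - k) := by
      have := sub_dvd_pow_sub_pow (x + p * t) x (p - k)
      apply dvd_trans _ this
      exact ⟨t, by ring⟩
    rw [← mul_sub, pow_two]
    exact mul_dvd_mul f1 f2
  rw [Finset.sum_sub_distrib] at d2
  have := dvd_add d1 d2
  obtain ⟨c, hc⟩ := this
  exact ⟨c, by linear_combination hc⟩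

theorem kb_M (p : ℕ) (hp : p.Prime) (x : ℤ) (hx : ¬ (p : ℤ) ∣ x - 1) :
    (p : ℤ) ∣ (x - 1) ^ (p - 1) + ∑ k ∈ Icc 1 (p - 1), ((k : ℤ) ^ (p - 1) - 1) * x ^ (p - k) - 1 := by
  have h1 := kb_fermat p hp _ hx
  have h2 : (p : ℤ) ∣ ∑ k ∈ Icc 1 (p - 1), ((k : ℤ) ^ (p - 1) - 1) * x ^ (p - k) :=
    Finset.dvd_sum (fun k hk => (kb_fermat p hp _ (kb_nat_not p k hk)).mul_right _)
  have := dvd_add h1 h2
  obtain ⟨c, hc⟩ := this
  exact ⟨c, by linear_combination hc⟩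

theorem uni (p : ℕ) (hp : p.Prime) (hp2 : 2 < p) (x : ℤ) (hx : ¬ (p : ℤ) ∣ x - 1) :
    ∃! t : ℕ, t < p ∧ Cg p (x + p * t) := by
  haveI : Fact p.Prime := ⟨hp⟩
  obtain ⟨m, hm⟩ := kb_M p hp x hx
  have hu : ((x - 1 : ℤ) : ZMod p) ≠ 0 := by
    intro h
    exact hx ((ZMod.intCast_zmod_eq_zero_iff_dvd _ _).1 h)
  have hu2 : (((x - 1) ^ (p - 2) : ℤ) : ZMod p) ≠ 0 := by
    push_cast
    push_cast at hu
    exact pow_ne_zero _ hu
  have hpz : (p : ℤ) ≠ 0 := by exact_mod_cast hp.ne_zero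
  have iff1 : ∀ t : ℤ, Cg p (x + p * t) ↔ (m : ZMod p) = (t : ZMod p) * (((x - 1) ^ (p - 2) : ℤ) : ZMod p) := by
    intro t
    have hs := kb_shift p hp hp2 x t
    rw [hm] at hs
    have a1 : Cg p (x + p * t) ↔ ((p : ℤ) ^ 2) ∣ ((x + p * t - 1) ^ (p - 1) + ∑ k ∈ Icc 1 (p - 1), ((k : ℤ) ^ (p - 1) - 1) * (x + p * t) ^ (p - k) - 1) := by
      unfold Cg
      rw [Int.modEq_iff_dvd, ← dvd_neg]
      apply iff_of_eq
      congr 1
      ring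
    have a2 : ((p : ℤ) ^ 2) ∣ ((x + p * t - 1) ^ (p - 1) + ∑ k ∈ Icc 1 (p - 1), ((k : ℤ) ^ (p - 1) - 1) * (x + p * t) ^ (p - k) - 1)
        ↔ ((p : ℤ) ^ 2) ∣ (p * m - p * t * (x - 1) ^ (p - 2)) := by
      constructor
      · intro h
        have := dvd_sub h hs
        obtain ⟨c, hc⟩ := this
        exact ⟨c, by linear_combination hc⟩
      · intro h
        have := dvd_add h hs
        obtain ⟨c, hc⟩ := this
        exact ⟨c, by linear_combination hc⟩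
    have a3 : ((p : ℤ) ^ 2) ∣ (p * m - p * t * (x - 1) ^ (p - 2)) ↔ (p : ℤ) ∣ m - t * (x - 1) ^ (p - 2) := by
      rw [show (p : ℤ) * m - p * t * (x - 1) ^ (p - 2) = p * (m - t * (x - 1) ^ (p - 2)) by ring, pow_two]
      exact mul_dvd_mul_iff_left hpz
    rw [a1, a2, a3, ← ZMod.intCast_zmod_eq_zero_iff_dvd]
    push_cast
    rw [sub_eq_zero]
  refine ⟨((m : ZMod p) * ((((x - 1) ^ (p - 2) : ℤ) : ZMod p))⁻¹).val, ⟨ZMod.val_lt _, ?_⟩, ?_⟩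
  · have := (iff1 ((((m : ZMod p) * ((((x - 1) ^ (p - 2) : ℤ) : ZMod p))⁻¹).val : ℕ) : ℤ)).2 (by
      rw [Int.cast_natCast, ZMod.natCast_val, ZMod.cast_id', id]
      rw [mul_assoc, inv_mul_cancel₀ hu2, mul_one])
    exact this
  · rintro t ⟨ht, hc⟩
    have h1 := (iff1 (t : ℤ)).1 hc
    have h2 : (t : ZMod p) = (m : ZMod p) * ((((x - 1) ^ (p - 2) : ℤ) : ZMod p))⁻¹ := by
      rw [h1, mul_assoc, mul_inv_cancel₀ hu2, mul_one]
      simp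
    rw [← h2, ZMod.val_natCast, Nat.mod_eq_of_lt ht]

theorem no_one (p : ℕ) (hp : p.Prime) (hp2 : 2 < p) (x : ℤ) (hx : (p : ℤ) ∣ x - 1) : ¬ Cg p x := by
  intro h
  unfold Cg at h
  rw [Int.modEq_iff_dvd] at h
  have h1 : (p : ℤ) ∣ (x - 1) ^ (p - 1) := dvd_pow hx (by omega)
  have h2 : (p : ℤ) ∣ ∑ k ∈ Icc 1 (p - 1), ((k : ℤ) ^ (p - 1) - 1) * x ^ (p - k) :=
    Finset.dvd_sum (fun k hk => (kb_fermat p hp _ (kb_nat_not p k hk)).mul_right _)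
  have h3 : (p : ℤ) ∣ 1 - ((x - 1) ^ (p - 1) + ∑ k ∈ Icc 1 (p - 1), ((k : ℤ) ^ (p - 1) - 1) * x ^ (p - k)) :=
    dvd_trans (Dvd.intro_left _ (by ring : (p : ℤ) * p = p ^ 2)) h
  have h4 := dvd_add h3 (dvd_add h1 h2)
  rw [sub_add_cancel] at h4
  have := Int.eq_one_of_dvd_one (by positivity) h4
  have : p = 1 := by exact_mod_cast this
  omega

end H5FA
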