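import Pool.Agent.H5.FA.Defs

/-!
# [H5 FA KRO] the ring of integers of `ℚ(ζ_p)`

* `cyc_inst`: `ζ` = `IsCyclotomicExtension.zeta p ℚ K`, `z = (IsCyclotomicExtension.zeta_spec p ℚ K).toInteger`. `gen`: `𝓞 K = ℤ[z]` (`IsPrimitiveRoot.integralPowerBasis`, or
  `IsCyclotomicExtension.Rat.isIntegralClosure_adjoin_singleton_of_prime`). `ker`: the minimal polynomial of `ζ` over `ℤ` is `cyclotomic p ℤ` (`Polynomial.cyclotomic_eq_minpoly`), which is
  `∑_{k<p} X^k` (`Polynomial.cyclotomic_prime`); `minpoly.isIntegrallyClosed_dvd`.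
* `kro`: Kronecker: `NumberField.Embeddings.pow_eq_one_of_norm_eq_one` (all `φ : K →+* ℂ`; `φ` restricted to `𝓞 K` is a `σ`) gives `ε` of finite order; then
  `IsPrimitiveRoot.exists_pow_or_neg_mul_pow_of_isOfFinOrder` (`p` odd) gives `ε = ± ζ^i`, so `ε^p = ±1`.
-/

namespace H5FA

open Finset Polynomial NumberField

theorem cyc_inst (p : ℕ) (hp : p.Prime) (hp2 : 2 < p) :
    ∃ z : 𝓞 (CyclotomicField p ℚ), Cyc p z := by
  haveI : Fact p.Prime := ⟨hp⟩
  haveI : NeZero p := ⟨hp.ne_zero⟩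
  haveI : NeZero ((p : ℕ) : ℚ) := ⟨by exact_mod_cast hp.ne_zero⟩
  haveI : IsCyclotomicExtension {p} ℚ (CyclotomicField p ℚ) := CyclotomicField.isCyclotomicExtension p ℚ
  have hζ := IsCyclotomicExtension.zeta_spec p ℚ (CyclotomicField p ℚ)
  have hz := hζ.toInteger_isPrimitiveRoot
  refine ⟨hζ.toInteger, ?_, ?_, ?_, ?_⟩
  · exact hz.pow_eq_one
  · exact hz.geom_sum_eq_zero hp.one_lt
  · intro x
    have := hζ.integralPowerBasis.exists_eq_aeval' x
    rw [IsPrimitiveRoot.integralPowerBasis_gen] at this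
    exact this
  · intro f hf
    rw [← cyclotomic_prime, cyclotomic_eq_minpoly hζ hp.pos]
    apply minpoly.isIntegrallyClosed_dvd (hζ.isIntegral hp.pos)
    have h1 := congrArg (algebraMap (𝓞 (CyclotomicField p ℚ)) (CyclotomicField p ℚ)) hf
    rw [map_zero, ← aeval_algebraMap_apply] at h1
    exact h1

theorem kro (p : ℕ) (hp : p.Prime) (hp2 : 2 < p) (ε : 𝓞 (CyclotomicField p ℚ))
    (h : ∀ σ : 𝓞 (CyclotomicField p ℚ) →+* ℂ, Complex.normSq (σ ε) = 1) : ε ^ p = 1 ∨ ε ^ p = -1 := by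
  haveI : Fact p.Prime := ⟨hp⟩
  haveI : NeZero p := ⟨hp.ne_zero⟩
  haveI : NeZero ((p : ℕ) : ℚ) := ⟨by exact_mod_cast hp.ne_zero⟩
  haveI : IsCyclotomicExtension {p} ℚ (CyclotomicField p ℚ) := CyclotomicField.isCyclotomicExtension p ℚ
  have hζ := IsCyclotomicExtension.zeta_spec p ℚ (CyclotomicField p ℚ)
  have hfin : IsOfFinOrder (ε : CyclotomicField p ℚ) := by
    rw [isOfFinOrder_iff_pow_eq_one]
    obtain ⟨n, hn, hx⟩ := Embeddings.pow_eq_one_of_norm_eq_one (CyclotomicField p ℚ) ℂ ε.isIntegral_coe (by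
      intro φ
      have h1 := h (φ.comp (algebraMap (𝓞 (CyclotomicField p ℚ)) (CyclotomicField p ℚ)))
      rw [Complex.normSq_eq_norm_sq] at h1
      have h2 : ‖φ (ε : CyclotomicField p ℚ)‖ ^ 2 = 1 := h1
      nlinarith [norm_nonneg (φ (ε : CyclotomicField p ℚ)), sq_nonneg (‖φ (ε : CyclotomicField p ℚ)‖ - 1)])
    exact ⟨n, hn, hx⟩
  have hodd : Odd p := by
    rcases hp.eq_two_or_odd' with h | h
    · omega
    · exact h
  obtain ⟨r, -, hr⟩ := hζ.exists_pow_or_neg_mul_pow_of_isOfFinOrder hodd hfin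
  have hzp : (IsCyclotomicExtension.zeta p ℚ (CyclotomicField p ℚ)) ^ p = 1 := hζ.pow_eq_one
  rcases hr with hr | hr
  · left
    have h1 : (ε : CyclotomicField p ℚ) ^ p = 1 := by
      rw [hr, ← pow_mul, mul_comm, pow_mul, hzp, one_pow]
    exact_mod_cast h1
  · right
    have h1 : (ε : CyclotomicField p ℚ) ^ p = -1 := by
      rw [hr, hodd.neg_pow, ← pow_mul, mul_comm, pow_mul, hzp, one_pow]
    exact_mod_cast h1

end H5FA
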