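import Pool.Agent.H5.FA.Lc
import Pool.Agent.H5.FA.Kro
import Pool.Agent.H5.FA.Glo
import Pool.Agent.H5.FA.Ka
import Pool.Agent.H5.FA.Kb
import Pool.Agent.H5.FA.Exc

/-!
# [H5 FA FIN] assembly
-/

namespace H5FA

open Finset Polynomial NumberField

theorem pth (p q : ℕ) (hp : p.Prime) (hq : q.Prime) (hp2 : 2 < p) (hpq : p < q)
    (h : (q ^ p - 1) / (q - 1) ∣ (p ^ q - 1) / (p - 1)) : Cg p q := by
  obtain ⟨z, hz⟩ := cyc_inst p hp hp2
  have h1 := exc_one p q hp hq hpq h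
  obtain ⟨ε, a, hε, ha⟩ := glob hp hz q hq.one_le (fun ε hε => kro p hp hp2 ε hε) (fun r hr hrA => by
    haveI : Fact r.Prime := ⟨hr⟩
    obtain ⟨hpr, hy⟩ := exc_pow p q hp hq hpq h r hr hrA
    exact loc_exists hp hp2 hz hpr q hrA hy)
  obtain ⟨S, hS⟩ := exists_S hp hp2 hz
  exact kb p hp hp2 q (ka hp hp2 hz q h1 S hS ε a hε ha)

end H5FA
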