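import Pool.Agent.H5.FA.Bas

/-!
# [H5 FA AB] absolute values of the Jacobi sums

`|σ z| = 1` (`(σ z)^p = 1`, `Complex.norm_eq_one_of_pow_eq_one`).
* `abs_jac`: apply `jacobiSum_mul_jacobiSum_inv` (Mathlib, `Mathlib/NumberTheory/JacobiSum/Basic.lean`) to `χ' = χ.ringHomComp σ` and `χ'^n` (values in `ℂ`); `χ' ≠ 1`, `χ'^n ≠ 1`, `χ'^(n+1) ≠ 1`
  because `χ'` has order `p` (`σ` is injective on the roots of unity `z^j`: `σ z` is a primitive `p`-th root of unity; or `σ` injective: `O` has characteristic zero and every nonzero ideal ...;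
  simplest: `σ z ≠ 1` by `σ` applied to `sum`, so `σ z` is primitive, `χ^k x = z^j` with `z^j ≠ 1` gives `σ (z^j) ≠ 1`), `ringChar ℂ = 0 ≠ r`. The complex conjugate of
  `σ (J(χ, χ^n)) = J(χ', χ'^n)` is `J(χ'⁻¹, χ'^(-n))` because all values of `χ'` have absolute value `1` or are `0` (`jacobiSum_ringHomComp`).
* `abs_G`: `r^2 * r^(p-2)`.
-/

namespace H5FA

open Finset Polynomial

variable {p : ℕ} {O : Type} [CommRing O] [IsDomain O] {z : O} {r : ℕ} [Fact r.Prime]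

private theorem ab_one (hp : p.Prime) (hz : Cyc p z) (σ : O →+* ℂ) (j : ℕ)
    (h : σ z ^ j = 1) : p ∣ j := by
  have h1 : σ z ≠ 1 := by
    intro h2
    have h3 := congrArg σ hz.sum
    rw [map_sum, map_zero] at h3
    simp only [map_pow, h2, one_pow, sum_const, card_range, nsmul_eq_mul, mul_one] at h3
    exact hp.ne_zero (by exact_mod_cast h3)
  have h2 : σ z ^ p = 1 := by rw [← map_pow, hz.pow, map_one]
  have : Fact p.Prime := ⟨hp⟩
  have h3 := orderOf_eq_prime h2 h1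
  rw [← h3]
  exact orderOf_dvd_of_pow_eq_one h

private theorem ab_ne (hp : p.Prime) (hz : Cyc p z) (q : ℕ) (χ : MulChar (ZMod r) O)
    (hχ : Chr p q r z χ) (σ : O →+* ℂ) (k : ℕ) (hk : ¬ p ∣ k) :
    (χ.ringHomComp σ) ^ k ≠ 1 := by
  intro h
  have h1 : χ = 1 := by
    ext x
    obtain ⟨j, hj, -⟩ := hχ.val (x : ZMod r) x.ne_zero
    have h2 := congrArg (fun ψ : MulChar (ZMod r) ℂ => ψ (x : ZMod r)) h
    simp only [MulChar.pow_apply_coe, MulChar.one_apply_coe, MulChar.ringHomComp_apply] at h2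
    rw [hj, map_pow, ← pow_mul] at h2
    have h3 := ab_one hp hz σ _ h2
    have h4 : p ∣ j := by
      rcases (Nat.Prime.dvd_mul hp).1 h3 with h5 | h5
      · exact h5
      · exact absurd h5 hk
    obtain ⟨i, rfl⟩ := h4
    rw [hj, pow_mul, hz.pow, one_pow, MulChar.one_apply_coe]
  have h2 := hχ.ord
  rw [h1, orderOf_one] at h2
  exact hp.one_lt.ne h2

theorem abs_jac (hp : p.Prime) (hz : Cyc p z) (q : ℕ) (χ : MulChar (ZMod r) O) (hχ : Chr p q r z χ) (n : ℕ)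
    (hn : n ∈ Ico 1 (p - 1)) (σ : O →+* ℂ) : Complex.normSq (σ (jacobiSum χ (χ ^ n))) = r := by
  have h2 := hp.two_le
  rw [mem_Ico] at hn
  obtain ⟨ψ, hψ⟩ : ∃ ψ : MulChar (ZMod r) ℂ, ψ = χ.ringHomComp σ := ⟨_, rfl⟩
  have hJ : σ (jacobiSum χ (χ ^ n)) = jacobiSum ψ (ψ ^ n) := by
    rw [hψ, MulChar.ringHomComp_pow, jacobiSum_ringHomComp]
  have hconj : (starRingEnd ℂ) (jacobiSum ψ (ψ ^ n)) = jacobiSum ψ⁻¹ (ψ ^ n)⁻¹ := by
    unfold jacobiSum
    rw [map_sum]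
    refine Finset.sum_congr rfl fun x _ => ?_
    rw [map_mul]
    have e1 : (starRingEnd ℂ) (ψ x) = ψ⁻¹ x := MulChar.star_apply' ψ x
    have e2 : (starRingEnd ℂ) ((ψ ^ n) (1 - x)) = (ψ ^ n)⁻¹ (1 - x) :=
      MulChar.star_apply' (ψ ^ n) (1 - x)
    rw [e1, e2]
  have hne1 : ψ ≠ 1 := by
    have h3 := ab_ne hp hz q χ hχ σ 1 (fun h => by
      have := Nat.le_of_dvd one_pos h
      omega)
    rwa [pow_one, ← hψ] at h3
  have hne2 : ψ ^ n ≠ 1 := by
    rw [hψ]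
    exact ab_ne hp hz q χ hχ σ n (fun h => by
      have := Nat.le_of_dvd (by omega) h
      omega)
  have hne3 : ψ * ψ ^ n ≠ 1 := by
    rw [← pow_succ', hψ]
    exact ab_ne hp hz q χ hχ σ (n + 1) (fun h => by
      have := Nat.le_of_dvd (by omega) h
      omega)
  have hr : r.Prime := Fact.out
  have hchar : ringChar ℂ ≠ ringChar (ZMod r) := by
    rw [ZMod.ringChar_zmod_n, ringChar.eq_zero]
    exact hr.ne_zero.symm
  have h3 := jacobiSum_mul_jacobiSum_inv hchar hne1 hne2 hne3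
  rw [← hconj, Complex.mul_conj, ZMod.card] at h3
  rw [hJ]
  exact_mod_cast h3

theorem abs_G (hp : p.Prime) (hp2 : 2 < p) (hz : Cyc p z) (q : ℕ) (χ : MulChar (ZMod r) O) (hχ : Chr p q r z χ)
    (σ : O →+* ℂ) : Complex.normSq (σ (Gj p r χ)) = (r : ℝ) ^ p := by
  unfold Gj
  rw [map_mul, map_natCast, map_prod, map_mul, map_prod, Complex.normSq_natCast]
  have h1 : ∏ n ∈ Ico 1 (p - 1), Complex.normSq (σ (jacobiSum χ (χ ^ n))) =
      (r : ℝ) ^ (p - 2) := by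
    rw [Finset.prod_congr rfl fun n hn => abs_jac hp hz q χ hχ n hn σ, Finset.prod_const,
      Nat.card_Ico]
    congr 1
  rw [h1, ← pow_two, ← pow_add]
  congr 1
  omega

end H5FA
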