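import Pool.Agent.H5.FA.Defs

/-!
# [H5 FA BAS] basic facts on `ℤ[z]`

* `bas_div`: `n = m x`, `x = f(z)`: `Φ ∣ C n - C m * f` (`ker`), `Φ = ∑_{k<p} X^k` monic of degree `p - 1 ≥ 1`. If `m = 0`: `C n = Φ h`, degrees: `n = 0`.
  If `m ≠ 0`: map to `(ZMod |m|)[X]` : `C n = Φ h` there, `Φ` is monic of degree `p-1 ≥ 1`, so `h = 0`, `n = 0` in `ZMod |m|`.
* `bas_int`: `n = (1 - z) x`, `x = f(z)`: `Φ ∣ C n - (1 - X) f`; evaluate at `1`: `n = Φ(1) h(1) = p h(1)`.
* `bas_res`: `x = f(z)`, `n = f(1)`: `X - 1 ∣ f - C (f(1))`.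
* `bas_p`: `p = ∏_{k=1}^{p-1} (1 - z^k)`. (Evaluate at `1`: `∑_{k<p} X^k = ∏_{k=1}^{p-1} (X - z^k)` in `O[X]`; `z` is a primitive `p`-th root of
  unity of the domain `O` because `z ^ p = 1` and `z ≠ 1` (`z = 1` gives `p = 0` in `O` by `sum`, against `bas_div`); Mathlib: `IsPrimitiveRoot` and
  `X_pow_sub_one_eq_prod`, or `Polynomial.cyclotomic`.) `1 - z^k = (1 - z)(1 + z + ... + z^(k-1))` and the second factor is `≡ k` modulo `1 - z`;
  so `v = ∏_k (1 + ... + z^(k-1)) ≡ (p-1)!` modulo `1 - z`, `(p-1)! ≡ -1` modulo `p` (Wilson), and `1 - z ∣ p`.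
* `bas_ne`: `1 - z = 0` would give `1 - z ∣ 1` false by `bas_int`... (`0 ∣ p` gives `p = 0` against `bas_div`).
* `bas_prim`: see `bas_p`.
-/

namespace H5FA

open Finset Polynomial

variable {p : ℕ} {O : Type} [CommRing O] {z : O}

theorem Phi_monic (hp : p.Prime) : (∑ k ∈ range p, X ^ k : ℤ[X]).Monic := by
  haveI : Fact p.Prime := ⟨hp⟩
  rw [← cyclotomic_prime]
  exact cyclotomic.monic p ℤ

theorem Phi_degree (hp : p.Prime) : (∑ k ∈ range p, X ^ k : ℤ[X]).degree = ((p - 1 : ℕ) : WithBot ℕ) := by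
  haveI : Fact p.Prime := ⟨hp⟩
  rw [← cyclotomic_prime, degree_cyclotomic, Nat.totient_prime hp]

theorem bas_div (hp : p.Prime) (hz : Cyc p z) (n m : ℤ) (h : (m : O) ∣ (n : O)) : m ∣ n := by
  obtain ⟨x, hx⟩ := h
  obtain ⟨f, rfl⟩ := hz.gen x
  have h2 := hp.two_le
  have hmon := Phi_monic hp
  have hdeg := Phi_degree hp
  have h1 : aeval z (C n - C m * f : ℤ[X]) = 0 := by
    simp only [map_sub, map_mul]
    rw [aeval_C, aeval_C]
    simp only [algebraMap_int_eq, eq_intCast]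
    rw [hx, sub_self]
  have h3 := hz.ker _ h1
  set F := (∑ k ∈ range p, X ^ k : ℤ[X]) with hF
  have h4 : F ∣ C n - C m * (f %ₘ F) := by
    have e : (C n - C m * (f %ₘ F) : ℤ[X]) = (C n - C m * f) + F * (C m * (f /ₘ F)) := by
      have e0 := modByMonic_add_div f F
      linear_combination (- C m) * e0
    rw [e]
    exact dvd_add h3 (dvd_mul_right _ _)
  have h5 : (C n - C m * (f %ₘ F) : ℤ[X]) = 0 := by
    by_contra hne
    apply hmon.not_dvd_of_degree_lt hne _ h4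
    have hF0 : (1 : WithBot ℕ) ≤ F.degree := by
      rw [hdeg]
      exact_mod_cast (by omega : 1 ≤ p - 1)
    have hne1 : F ≠ 1 := by
      intro h
      rw [h, degree_one] at hF0
      exact absurd hF0 (by decide)
    have hlt : (f %ₘ F).degree < F.degree := degree_modByMonic_lt f hmon
    apply lt_of_le_of_lt (degree_sub_le _ _)
    rw [max_lt_iff]
    refine ⟨lt_of_le_of_lt degree_C_le (lt_of_lt_of_le (by decide) hF0), ?_⟩
    apply lt_of_le_of_lt _ hlt
    rcases eq_or_ne m 0 with h | h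
    · rw [h]; simp
    · rw [degree_C_mul h]
  have h6 := congrArg (fun g : ℤ[X] => g.coeff 0) h5
  simp only [coeff_sub, coeff_C_zero, coeff_C_mul, coeff_zero] at h6
  exact ⟨(f %ₘ F).coeff 0, by linarith⟩

theorem bas_int (hp : p.Prime) (hz : Cyc p z) (n : ℤ) (h : (1 - z) ∣ (n : O)) : (p : ℤ) ∣ n := by
  obtain ⟨x, hx⟩ := h
  obtain ⟨f, rfl⟩ := hz.gen x
  have h1 : aeval z (C n - (1 - X) * f : ℤ[X]) = 0 := by
    simp only [map_sub, map_mul, map_one, aeval_X]
    rw [aeval_C]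
    simp only [algebraMap_int_eq, eq_intCast]
    rw [hx, sub_self]
  obtain ⟨g, hg⟩ := hz.ker _ h1
  have h2 := congrArg (eval (1 : ℤ)) hg
  simp only [eval_sub, eval_mul, eval_C, eval_one, eval_X, sub_self, zero_mul, sub_zero, eval_finset_sum, eval_pow, one_pow, sum_const, card_range, nsmul_eq_mul, mul_one] at h2
  exact ⟨_, h2⟩

theorem bas_res (hz : Cyc p z) (x : O) : ∃ n : ℤ, (1 - z) ∣ x - n := by
  obtain ⟨f, rfl⟩ := hz.gen x
  refine ⟨f.eval 1, ?_⟩
  obtain ⟨g, hg⟩ := X_sub_C_dvd_sub_C_eval (a := (1 : ℤ)) (p := f)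
  have h1 := congrArg (aeval z) hg
  simp only [map_sub, map_mul, aeval_X, aeval_C, algebraMap_int_eq, eq_intCast, Int.cast_one, map_one] at h1
  refine ⟨- aeval z g, ?_⟩
  have h3 : (aeval z) ((eval 1 f : ℤ) : ℤ[X]) = ((eval 1 f : ℤ) : O) := by simp
  rw [h3] at h1
  rw [h1]
  ring

theorem bas_z (hp : p.Prime) (hz : Cyc p z) : z ≠ 1 := by
  rintro rfl
  have h := hz.sum
  simp only [one_pow, sum_const, card_range, nsmul_eq_mul, mul_one] at h
  have h1 := bas_div hp hz (p : ℤ) 0 (by push_cast; rw [h])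
  rw [zero_dvd_iff] at h1
  have := hp.ne_zero
  omega

theorem bas_prim [IsDomain O] (hp : p.Prime) (hz : Cyc p z) : IsPrimitiveRoot z p := by
  haveI : Fact p.Prime := ⟨hp⟩
  have h := orderOf_eq_prime hz.pow (bas_z hp hz)
  have h1 := IsPrimitiveRoot.orderOf z
  rwa [h] at h1

theorem bas_p [IsDomain O] (hp : p.Prime) (hz : Cyc p z) :
    ∃ v s : O, (p : O) = v * (1 - z) ^ (p - 1) ∧ v = -1 + (1 - z) * s := by
  haveI : Fact p.Prime := ⟨hp⟩
  have hprim := bas_prim hp hz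
  have h2 := hp.two_le
  have e0 : p - 1 + 1 = p := by omega
  have h1 : ∏ k ∈ range (p - 1), (1 - z ^ (k + 1)) = (p : O) := by
    have := IsPrimitiveRoot.prod_one_sub_pow_eq_order (n := p - 1) (μ := z) (by rwa [e0])
    rw [this]
    have e1 : ((p - 1 : ℕ) : O) + 1 = ((p - 1 + 1 : ℕ) : O) := by push_cast; ring
    rw [e1, e0]
  have hp' : (p : O) = (∏ k ∈ range (p - 1), ∑ j ∈ range (k + 1), z ^ j) * (1 - z) ^ (p - 1) := by
    rw [← h1]
    have : ∀ k ∈ range (p - 1), (1 - z ^ (k + 1)) = (∑ j ∈ range (k + 1), z ^ j) * (1 - z) := by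
      intro k _
      rw [geom_sum_mul_neg]
    rw [Finset.prod_congr rfl this, Finset.prod_mul_distrib, Finset.prod_const, card_range]
  have hv : (1 - z) ∣ (∏ k ∈ range (p - 1), ∑ j ∈ range (k + 1), z ^ j) + 1 := by
    rw [← Ideal.mem_span_singleton, ← Ideal.Quotient.eq_zero_iff_mem]
    have hz1 : (Ideal.Quotient.mk (Ideal.span {1 - z})) z = 1 := by
      have : (Ideal.Quotient.mk (Ideal.span {1 - z})) (1 - z) = 0 := by
        rw [Ideal.Quotient.eq_zero_iff_mem]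
        exact Ideal.mem_span_singleton_self _
      rw [map_sub, map_one] at this
      exact (sub_eq_zero.1 this).symm
    rw [map_add, map_prod, map_one]
    have : ∀ k ∈ range (p - 1), (Ideal.Quotient.mk (Ideal.span {1 - z})) (∑ j ∈ range (k + 1), z ^ j) = ((k + 1 : ℕ) : O ⧸ (Ideal.span {1 - z})) := by
      intro k _
      rw [map_sum]
      simp only [map_pow, hz1, one_pow, sum_const, card_range, nsmul_eq_mul, mul_one]
    rw [Finset.prod_congr rfl this]
    have e2 : ∏ k ∈ range (p - 1), ((k + 1 : ℕ) : O ⧸ (Ideal.span {1 - z})) = (((p - 1).factorial : ℕ) : O ⧸ (Ideal.span {1 - z})) := by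
      rw [← Finset.prod_range_add_one_eq_factorial]
      push_cast
      rfl
    rw [e2]
    have hw := ZMod.wilsons_lemma p
    have hd : (p : ℤ) ∣ (((p - 1).factorial : ℕ) : ℤ) + 1 := by
      rw [← ZMod.intCast_zmod_eq_zero_iff_dvd]
      push_cast
      push_cast at hw
      rw [hw]
      ring
    obtain ⟨c, hc⟩ := hd
    have e3 : (((p - 1).factorial : ℕ) : O ⧸ (Ideal.span {1 - z})) + 1 = ((((((p - 1).factorial : ℕ) : ℤ) + 1 : ℤ)) : O ⧸ (Ideal.span {1 - z})) := by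
      push_cast
      rfl
    rw [e3, hc]
    push_cast
    have e4 : ((p : ℕ) : O ⧸ (Ideal.span {1 - z})) = 0 := by
      have : ((p : ℕ) : O ⧸ (Ideal.span {1 - z})) = (Ideal.Quotient.mk (Ideal.span {1 - z})) (p : O) := by
        rw [map_natCast]
      rw [this, Ideal.Quotient.eq_zero_iff_mem, Ideal.mem_span_singleton, hp']
      exact (dvd_pow_self _ (by omega)).mul_left _
    rw [e4, zero_mul]
  obtain ⟨s, hs⟩ := hv
  exact ⟨_, s, hp', by rw [← hs]; ring⟩

theorem bas_ne (hp : p.Prime) (hz : Cyc p z) : (1 - z) ≠ 0 := by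
  intro h
  exact bas_z hp hz (sub_eq_zero.1 h).symm

end H5FA
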