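import Pool.Agent.H5.FA.Bas

/-!
# [H5 FA CHI] the power residue character

* `exists_chi`: `q` has order `p` in `(ZMod r)ˣ`, so `p ∣ r - 1`. For a unit `x` the element `x^((r-1)/p)` is a `p`-th root of unity, so it equals `q^j` for some `j`
  (`IsPrimitiveRoot.eq_pow_of_pow_eq_one`); put `χ x = z^j`; well defined and multiplicative because `q` and `z` both have order `p`.
-/

namespace H5FA

open Finset Polynomial

variable {p : ℕ} {O : Type} [CommRing O] {z : O} {r : ℕ} [Fact r.Prime]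

theorem exists_chi [IsDomain O] (hp : p.Prime) (hz : Cyc p z) (q : ℕ) (hq : (q : ZMod r) ^ p = 1)
    (hq1 : (q : ZMod r) ≠ 1) : ∃ χ : MulChar (ZMod r) O, Chr p q r z χ := by
  have hpf : Fact p.Prime := ⟨hp⟩
  have hprim := bas_prim hp hz
  obtain ⟨qu, hqu⟩ : ∃ qu : (ZMod r)ˣ, (qu : ZMod r) = q :=
    ⟨Units.ofPowEqOne _ p hq hp.ne_zero, Units.val_ofPowEqOne _ _ _ _⟩
  obtain ⟨zu, hzu⟩ : ∃ zu : Oˣ, (zu : O) = z :=
    ⟨Units.ofPowEqOne _ p hz.pow hp.ne_zero, Units.val_ofPowEqOne _ _ _ _⟩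
  have hqo : orderOf qu = p := by
    apply orderOf_eq_prime
    · apply Units.ext
      rw [Units.val_pow_eq_pow_val, hqu, hq, Units.val_one]
    · intro h
      apply hq1
      rw [← hqu, h, Units.val_one]
  have hzo : orderOf zu = p := by
    apply orderOf_eq_prime
    · apply Units.ext
      rw [Units.val_pow_eq_pow_val, hzu, hz.pow, Units.val_one]
    · intro h
      apply bas_z hp hz
      rw [← hzu, h, Units.val_one]
  have hqprim : IsPrimitiveRoot (q : ZMod r) p := by
    rw [← hqu, IsPrimitiveRoot.coe_units_iff]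
    rw [IsPrimitiveRoot.iff_orderOf]
    exact hqo
  have hcard : Fintype.card (ZMod r)ˣ = r - 1 := ZMod.card_units r
  have hdvd : p ∣ r - 1 := by
    rw [← hcard, ← hqo]
    exact orderOf_dvd_card
  obtain ⟨d, hd⟩ := hdvd
  have hdd : (r - 1) / p = d := by
    rw [hd]
    exact Nat.mul_div_cancel_left d hp.pos
  have hex : ∀ x : (ZMod r)ˣ, ∃ j : ℕ, qu ^ j = x ^ d := by
    intro x
    have h1 : ((x : ZMod r) ^ d) ^ p = 1 := by
      rw [← pow_mul, mul_comm, ← hd, ← Units.val_pow_eq_pow_val, ← hcard, pow_card_eq_one, Units.val_one]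
    have : NeZero p := ⟨hp.ne_zero⟩
    obtain ⟨j, -, hj⟩ := hqprim.eq_pow_of_pow_eq_one h1
    refine ⟨j, Units.ext ?_⟩
    rw [Units.val_pow_eq_pow_val, Units.val_pow_eq_pow_val, hqu, hj]
  choose J hJ using hex
  have hkey : ∀ i j : ℕ, qu ^ i = qu ^ j ↔ zu ^ i = zu ^ j := by
    intro i j
    rw [pow_eq_pow_iff_modEq, pow_eq_pow_iff_modEq, hqo, hzo]
  let φ : (ZMod r)ˣ →* Oˣ := MonoidHom.mk' (fun x => zu ^ J x) (by
    intro x y
    rw [← pow_add]
    apply (hkey _ _).1
    rw [pow_add, hJ, hJ, hJ, mul_pow])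
  let χ : MulChar (ZMod r) O := MulChar.ofUnitHom φ
  have hχ : ∀ x : (ZMod r)ˣ, χ x = z ^ J x := by
    intro x
    have h1 : χ x = (φ x : O) := MulChar.ofUnitHom_coe φ x
    rw [h1]
    change ((zu ^ J x : Oˣ) : O) = z ^ J x
    rw [Units.val_pow_eq_pow_val, hzu]
  refine ⟨χ, ?_, ?_⟩
  · apply orderOf_eq_prime
    · apply MulChar.ext
      intro x
      rw [MulChar.pow_apply_coe, hχ, ← pow_mul, mul_comm, pow_mul, hz.pow, one_pow, MulChar.one_apply_coe]
    · intro h
      obtain ⟨u, hu⟩ := IsCyclic.exists_generator (α := (ZMod r)ˣ)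
      have hou : orderOf u = r - 1 := by
        rw [orderOf_eq_card_of_forall_mem_zpowers hu, Nat.card_eq_fintype_card, hcard]
      have h1 : χ u = 1 := by rw [h, MulChar.one_apply_coe]
      rw [hχ] at h1
      have h2 : zu ^ J u = zu ^ 0 := by
        apply Units.ext
        rw [Units.val_pow_eq_pow_val, hzu, h1, pow_zero, Units.val_one]
      have h3 := (hkey _ _).2 h2
      rw [hJ, pow_zero] at h3
      have h4 : r - 1 ∣ d := by
        rw [← hou]
        exact orderOf_dvd_of_pow_eq_one h3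
      have hr : 0 < r - 1 := by
        have := (Fact.out : r.Prime).two_le
        omega
      have hd0 : 0 < d := by
        rcases Nat.eq_zero_or_pos d with h | h
        · rw [h, mul_zero] at hd
          omega
        · exact h
      have h5 := Nat.le_of_dvd hd0 h4
      have h6 : 2 * d ≤ p * d := Nat.mul_le_mul_right d hp.two_le
      omega
  · intro x hx
    obtain ⟨xu, rfl⟩ : ∃ xu : (ZMod r)ˣ, (xu : ZMod r) = x := ⟨Units.mk0 x hx, rfl⟩
    refine ⟨J xu, hχ xu, ?_⟩
    rw [hdd, ← hqu, ← Units.val_pow_eq_pow_val, hJ, Units.val_pow_eq_pow_val]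

end H5FA
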