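import Mathlib

/-!
# MP_470117_nt, the p-th power obstruction for Feit-Thompson pairs: definitions

`Cyc p z`: the ring `O` is `ℤ[z]`, `z` a primitive `p`-th root of unity (`O = ℤ[X]/(1 + X + ... + X^(p-1))`).
`iv p c` = inverse of `c` modulo `p`, in `[0, p)`. `yy p q c z = q - z^(1/c)`, `Aq p q = 1 + q + ... + q^(p-1) = ∏_c yy_c`,
`Vp = ∏ yy_c^(p-c)`, `Vm = ∏ yy_c^c` (complex conjugates), `Pn, Qn` = products over the `c` with `c + (c n mod p) < p`, resp. `≥ p`.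
`Ep p q w`: `(q - w)^p = q^p - w^p - p * Ep p q w`. `Gj p r χ = r ∏_n J(χ, χ^n)` = `p`-th power of the Gauss sum.
`Chr p q r z χ`: `χ` is the `p`-th power residue character modulo the prime `(r, z - q)` of `O`.
`Loc p q r z G`: the three facts about `G = Gj` which are used (congruence modulo `(1-z)^(p+1)`, divisibility, absolute value).
`RR O r = O[X]/(1 + X + ... + X^(r-1))`, `rho` = image of `X`, `gs χ` = Gauss sum in `RR O r`.
-/

namespace H5FA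

open Finset Polynomial

/-- `O` is the ring of integers `ℤ[z]`, `z` a primitive `p`-th root of unity. -/
structure Cyc (p : ℕ) {O : Type} [CommRing O] (z : O) : Prop where
  pow : z ^ p = 1
  sum : ∑ k ∈ range p, z ^ k = 0
  gen : ∀ x : O, ∃ f : ℤ[X], x = aeval z f
  ker : ∀ f : ℤ[X], aeval z f = 0 → (∑ k ∈ range p, X ^ k : ℤ[X]) ∣ f

/-- Inverse modulo `p`. -/
def iv (p c : ℕ) : ℕ := ((c : ZMod p)⁻¹).val

def Aq (p q : ℕ) : ℕ := ∑ k ∈ range p, q ^ k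

section

variable {O : Type} [CommRing O]

def yy (p q c : ℕ) (z : O) : O := (q : O) - z ^ iv p c

def Vp (p q : ℕ) (z : O) : O := ∏ c ∈ Icc 1 (p - 1), yy p q c z ^ (p - c)

def Vm (p q : ℕ) (z : O) : O := ∏ c ∈ Icc 1 (p - 1), yy p q c z ^ c

def Pn (p q n : ℕ) (z : O) : O := ∏ c ∈ (Icc 1 (p - 1)).filter (fun c => c + (c * n) % p < p), yy p q c z

def Qn (p q n : ℕ) (z : O) : O := ∏ c ∈ (Icc 1 (p - 1)).filter (fun c => ¬ c + (c * n) % p < p), yy p q c z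

/-- `± C(p, k) / p` -/
def ek (p k : ℕ) : ℤ := (-1) ^ (k + 1) * ((p.choose k / p : ℕ) : ℤ)

def Ep (p q : ℕ) (w : O) : O := ∑ k ∈ Ico 1 p, (ek p k : O) * (q : O) ^ (p - k) * w ^ k

noncomputable def Gj (p r : ℕ) [Fact r.Prime] (χ : MulChar (ZMod r) O) : O :=
  (r : O) * ∏ n ∈ Ico 1 (p - 1), jacobiSum χ (χ ^ n)

/-- The `p`-th power residue character modulo the prime `(r, z - q)`. -/
structure Chr (p q r : ℕ) [Fact r.Prime] (z : O) (χ : MulChar (ZMod r) O) : Prop where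
  ord : orderOf χ = p
  val : ∀ x : ZMod r, x ≠ 0 → ∃ j : ℕ, χ x = z ^ j ∧ (q : ZMod r) ^ j = x ^ ((r - 1) / p)

structure Loc (p q r : ℕ) (z : O) (G : O) : Prop where
  cong : ∃ a : ℤ, (1 - z) ^ (p + 1) ∣ G - (a : O) ^ p
  dvd : ∀ v : ℕ, r ^ v ∣ Aq p q → (r : O) ^ (p * v) ∣ G ^ v * Vm p q z
  abs : ∀ σ : O →+* ℂ, Complex.normSq (σ G) = (r : ℝ) ^ p

end

noncomputable def fr (O : Type) [CommRing O] (r : ℕ) : O[X] := ∑ i ∈ range r, X ^ i

abbrev RR (O : Type) [CommRing O] (r : ℕ) : Type := AdjoinRoot (fr O r)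

noncomputable def rho (O : Type) [CommRing O] (r : ℕ) : RR O r := AdjoinRoot.root (fr O r)

/-- The Gauss sum. -/
noncomputable def gs {O : Type} [CommRing O] {r : ℕ} [Fact r.Prime] (χ : MulChar (ZMod r) O) : RR O r :=
  ∑ x : ZMod r, algebraMap O (RR O r) (χ x) * rho O r ^ x.val

/-- The congruence of the theorem. -/
def Cg (p : ℕ) (x : ℤ) : Prop :=
  (x - 1) ^ (p - 1) + ∑ k ∈ Icc 1 (p - 1), ((k : ℤ) ^ (p - 1) - 1) * x ^ (p - k) ≡ 1 [ZMOD (p : ℤ) ^ 2]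

end H5FA
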