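import Pool.Agent.H5.FA.Dva

/-!
# [H5 FA DV] divisibility by powers of `r`

* `jac_pow`: `J = r α + β Pn`, so `J^v = r^v α' + β' Pn` (binomial theorem / induction), `J^v Qn = r^v α' Qn + β' Aq` (`Pn_mul_Qn`) and `r^v ∣ Aq`.
* `G_dvd`: `G^v Vm = r^v (∏_n J_n^v) Aq (∏_n Qn) = r^v Aq ∏_n (J_n^v Qn)` (`Vm_eq`), divisible by `r^(v + v + (p-2) v)`.
-/

namespace H5FA

open Finset Polynomial

variable {p : ℕ} {O : Type} [CommRing O] [IsDomain O] {z : O} {r : ℕ} [Fact r.Prime]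

theorem jac_pow (hp : p.Prime) (hz : Cyc p z) (hpr : p ≠ r) (q : ℕ) (hq : (q : ZMod r) ^ p = 1) (hq1 : (q : ZMod r) ≠ 1)
    (χ : MulChar (ZMod r) O) (hχ : Chr p q r z χ) (n : ℕ) (hn : n ∈ Ico 1 (p - 1)) (v : ℕ) (hv : r ^ v ∣ Aq p q) :
    (r : O) ^ v ∣ jacobiSum χ (χ ^ n) ^ v * Qn p q n z := by
  obtain ⟨a, b, hab⟩ := Ideal.mem_span_pair.1 (jac_mem hp hz hpr q hq hq1 χ hχ n hn)
  have h1 : (r : O) ^ v ∣ Pn p q n z * Qn p q n z := by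
    rw [Pn_mul_Qn hp hz]
    have := map_dvd (Nat.castRingHom O) hv
    simpa using this
  have h2 : ∀ k : ℕ, ∃ α β : O, jacobiSum χ (χ ^ n) ^ k = (r : O) ^ k * α + β * Pn p q n z := by
    intro k
    induction k with
    | zero => exact ⟨1, 0, by simp⟩
    | succ k ih =>
      obtain ⟨α, β, h⟩ := ih
      refine ⟨a * α, r ^ k * α * b + β * (a * r + b * Pn p q n z), ?_⟩
      rw [pow_succ, h, ← hab]
      ring
  obtain ⟨α, β, h⟩ := h2 v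
  rw [h]
  have e : ((r : O) ^ v * α + β * Pn p q n z) * Qn p q n z = r ^ v * (α * Qn p q n z) + β * (Pn p q n z * Qn p q n z) := by
    ring
  rw [e]
  exact dvd_add (dvd_mul_right _ _) (h1.mul_left _)

theorem G_dvd (hp : p.Prime) (hp2 : 2 < p) (hz : Cyc p z) (hpr : p ≠ r) (q : ℕ) (hq : (q : ZMod r) ^ p = 1)
    (hq1 : (q : ZMod r) ≠ 1) (χ : MulChar (ZMod r) O) (hχ : Chr p q r z χ) (v : ℕ) (hv : r ^ v ∣ Aq p q) :
    (r : O) ^ (p * v) ∣ Gj p r χ ^ v * Vm p q z := by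
  have h1 : (r : O) ^ v ∣ (Aq p q : O) := by
    have := map_dvd (Nat.castRingHom O) hv
    simpa using this
  have h2 : ((r : O) ^ v) ^ (p - 2) ∣ ∏ n ∈ Ico 1 (p - 1), jacobiSum χ (χ ^ n) ^ v * Qn p q n z := by
    have h3 : ((r : O) ^ v) ^ (p - 2) = ∏ n ∈ Ico 1 (p - 1), (r : O) ^ v := by
      rw [Finset.prod_const, Nat.card_Ico]
      congr 1
    rw [h3]
    exact Finset.prod_dvd_prod_of_dvd _ _ fun n hn => jac_pow hp hz hpr q hq hq1 χ hχ n hn v hv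
  have e1 : Gj p r χ ^ v * Vm p q z = (r : O) ^ v * ((Aq p q : O) * ∏ n ∈ Ico 1 (p - 1), jacobiSum χ (χ ^ n) ^ v * Qn p q n z) := by
    rw [Vm_eq hp hz]
    unfold Gj
    rw [mul_pow, Finset.prod_mul_distrib, Finset.prod_pow]
    ring
  have e2 : (r : O) ^ (p * v) = (r : O) ^ v * ((r : O) ^ v * ((r : O) ^ v) ^ (p - 2)) := by
    rw [← pow_mul, ← pow_add, ← pow_add]
    congr 1
    obtain ⟨m, rfl⟩ : ∃ m, p = m + 2 := ⟨p - 2, by omega⟩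
    simp only [Nat.add_sub_cancel]
    ring
  rw [e1, e2]
  exact mul_dvd_mul (dvd_refl _) (mul_dvd_mul h1 h2)

end H5FA
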