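import Pool.Agent.H5.FA.Jc

/-!
# [H5 FA DVA] divisibility by powers of `r`

* `cop`: for `c ≠ c'`: `yy c - yy c' = z^(iv c') - z^(iv c)` lies in the sum of the two ideals; it is `± z^a (1 - z^k)` with `1 ≤ k < p`, and `1 - z^k ∣ p`
  (`p = ∏_{k=1}^{p-1} (1 - z^k)`, see `bas_p`; or `(1 - z) ∣ (1 - z^k)`-type arguments: `1 - z = 1 - (z^k)^k'` is divisible by `1 - z^k`, and `1 - z ∣ p`... one needs `1 - z^k ∣ p`:
  `bas_p` gives `(1-z) ∣ p`, and `1 - z^k` is associated to `1 - z`: each divides the other). So `p` and `r` are in the sum, they are coprime integers.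
* `jac_mem`: `J` lies in every ideal `I_c = (r, yy c)`, `c + (c n mod p) < p` (`exists_pi` for `t = q^c`, `pi_jac`, `ker_pi`), so in the product of these pairwise coprime ideals
  (`Ideal.prod_eq_inf`-type lemma: `Ideal.inf_eq_prod_of_coprime`, or induction with `Ideal.mul_eq_inf_of_coprime`); and `∏_c (r, yy_c) ≤ (r, ∏_c yy_c)` (induction).
-/

namespace H5FA

open Finset Polynomial

variable {p : ℕ} {O : Type} [CommRing O] [IsDomain O] {z : O} {r : ℕ} [Fact r.Prime]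

omit [IsDomain O] in
/-- `z^a - z^b` divides `1 - z` if `a < b`, `p ∤ b - a`. -/
theorem dva_lt (hp : p.Prime) (hz : z ^ p = 1) (a b : ℕ) (hab : a < b) (h : ¬ p ∣ b - a) :
    z ^ a - z ^ b ∣ 1 - z := by
  have h1 : 1 - z ^ (b - a) = z ^ (a * (p - 1)) * (z ^ a - z ^ b) := by
    have e1 : z ^ (a * (p - 1)) * z ^ a = 1 := by
      rw [← pow_add]
      have e : a * (p - 1) + a = p * a := by
        obtain ⟨m, rfl⟩ : ∃ m, p = m + 1 := ⟨p - 1, by have := hp.pos; omega⟩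
        simp only [Nat.add_sub_cancel]
        ring
      rw [e, pow_mul, hz, one_pow]
    have e2 : z ^ b = z ^ a * z ^ (b - a) := by
      rw [← pow_add]
      congr 1
      omega
    rw [e2]
    linear_combination (-1 + z ^ (b - a)) * e1
  have h2 : (1 - z ^ (b - a)) ∣ 1 - z := by
    obtain ⟨k, -, hk⟩ := Nat.exists_mul_mod_eq_one_of_coprime (k := p) (n := b - a)
      (((Nat.Prime.coprime_iff_not_dvd hp).2 h).symm) hp.one_lt
    have e : z = (z ^ (b - a)) ^ k := by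
      rw [← pow_mul, pow_eq_pow_mod _ hz, hk, pow_one]
    have h3 := sub_dvd_pow_sub_pow (1 : O) (z ^ (b - a)) k
    rwa [one_pow, ← e] at h3
  refine dvd_trans ?_ h2
  rw [h1]
  exact dvd_mul_left _ _

theorem dva_dvd (hp : p.Prime) (hz : Cyc p z) (a b : ℕ) (h : ¬ a ≡ b [MOD p]) : z ^ a - z ^ b ∣ (p : O) := by
  obtain ⟨v, _, hv, _⟩ := bas_p hp hz
  have h2 := hp.two_le
  have hzp : (1 - z) ∣ (p : O) := by
    rw [hv]
    exact (dvd_pow_self _ (by omega)).mul_left _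
  refine dvd_trans ?_ hzp
  rcases lt_trichotomy a b with hab | hab | hab
  · apply dva_lt hp hz.pow a b hab
    intro hd
    exact h ((Nat.modEq_iff_dvd' hab.le).2 hd)
  · subst hab
    exact absurd (Nat.ModEq.refl _) h
  · have := dva_lt hp hz.pow b a hab (by
      intro hd
      exact h ((Nat.modEq_iff_dvd' hab.le).2 hd).symm)
    rwa [← neg_sub, neg_dvd]

theorem dva_yy (hp : p.Prime) (hz : Cyc p z) (hpr : p ≠ r) (q c c' : ℕ) (hc : c ∈ Icc 1 (p - 1)) (hc' : c' ∈ Icc 1 (p - 1))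
    (h : c ≠ c') : ∃ u v : O, u * (r : O) + v * (yy p q c z - yy p q c' z) = 1 := by
  have h1 : ¬ iv p c' ≡ iv p c [MOD p] := by
    intro hh
    have i1 := mem_Icc.1 (iv_facts hp hc).1
    have i2 := mem_Icc.1 (iv_facts hp hc').1
    have h3 := Nat.ModEq.eq_of_lt_of_lt hh (by omega) (by omega)
    apply h
    rw [← iv_iv hp hc, ← iv_iv hp hc', h3]
  obtain ⟨w, hw⟩ := dva_dvd hp hz _ _ h1
  have hr : r.Prime := Fact.out
  have hcop : IsCoprime (p : ℤ) (r : ℤ) := by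
    rw [Int.isCoprime_iff_gcd_eq_one, Int.gcd_natCast_natCast]
    exact (Nat.coprime_primes hp hr).2 hpr
  obtain ⟨a, b, hab⟩ := hcop
  refine ⟨(b : O), (a : O) * w, ?_⟩
  have e := congrArg (Int.cast : ℤ → O) hab
  push_cast at e
  unfold yy
  linear_combination e - (a : O) * hw

theorem cop (hp : p.Prime) (hz : Cyc p z) (hpr : p ≠ r) (q c c' : ℕ) (hc : c ∈ Icc 1 (p - 1)) (hc' : c' ∈ Icc 1 (p - 1))
    (h : c ≠ c') : IsCoprime (Ideal.span {(r : O), yy p q c z}) (Ideal.span {(r : O), yy p q c' z}) := by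
  obtain ⟨u, v, huv⟩ := dva_yy (r := r) hp hz hpr q c c' hc hc' h
  rw [Ideal.isCoprime_iff_exists]
  refine ⟨u * (r : O) + v * yy p q c z, ?_, -(v * yy p q c' z), ?_, ?_⟩
  · exact Ideal.mem_span_pair.2 ⟨u, v, rfl⟩
  · exact Ideal.mem_span_pair.2 ⟨0, -v, by ring⟩
  · linear_combination huv

omit [IsDomain O] [Fact r.Prime] in
theorem dva_mem (x y : O) : x ∈ Ideal.span {(r : O), y} ↔
    Ideal.Quotient.mk (Ideal.span {(r : O)}) y ∣ Ideal.Quotient.mk (Ideal.span {(r : O)}) x := by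
  rw [Ideal.mem_span_pair]
  constructor
  · rintro ⟨a, b, rfl⟩
    have h1 : Ideal.Quotient.mk (Ideal.span {(r : O)}) (r : O) = 0 := by
      rw [Ideal.Quotient.eq_zero_iff_mem]
      exact Ideal.mem_span_singleton_self _
    rw [map_add, map_mul, map_mul, h1, mul_zero, zero_add]
    exact dvd_mul_left _ _
  · rintro ⟨b', hb⟩
    obtain ⟨b, rfl⟩ := Ideal.Quotient.mk_surjective b'
    rw [← map_mul, Ideal.Quotient.eq, Ideal.mem_span_singleton] at hb
    obtain ⟨a, ha⟩ := hb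
    exact ⟨a, b, by linear_combination -ha⟩

theorem jac_mem (hp : p.Prime) (hz : Cyc p z) (hpr : p ≠ r) (q : ℕ) (hq : (q : ZMod r) ^ p = 1) (hq1 : (q : ZMod r) ≠ 1)
    (χ : MulChar (ZMod r) O) (hχ : Chr p q r z χ) (n : ℕ) (hn : n ∈ Ico 1 (p - 1)) :
    jacobiSum χ (χ ^ n) ∈ Ideal.span {(r : O), Pn p q n z} := by
  rw [dva_mem]
  unfold Pn
  rw [map_prod]
  apply Finset.prod_dvd_of_coprime
  · intro c hc c' hc' hcc
    rw [mem_coe, mem_filter] at hc hc'
    obtain ⟨u, v, huv⟩ := dva_yy (r := r) hp hz hpr q c c' hc.1 hc'.1 hcc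
    refine ⟨Ideal.Quotient.mk (Ideal.span {(r : O)}) v, Ideal.Quotient.mk (Ideal.span {(r : O)}) (-v), ?_⟩
    rw [← map_mul, ← map_mul, ← map_add, ← map_one (Ideal.Quotient.mk (Ideal.span {(r : O)})), Ideal.Quotient.eq,
      Ideal.mem_span_singleton]
    exact ⟨-u, by linear_combination huv⟩
  · intro c hc
    rw [mem_filter] at hc
    have ht : ((q : ZMod r) ^ c) ^ p = 1 := by
      rw [← pow_mul, mul_comm, pow_mul, hq, one_pow]
    have ht1 : (q : ZMod r) ^ c ≠ 1 := by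
      intro h1
      haveI : Fact p.Prime := ⟨hp⟩
      have h2 := orderOf_eq_prime hq hq1
      have h3 := orderOf_dvd_of_pow_eq_one h1
      rw [h2] at h3
      have h4 := mem_Icc.1 hc.1
      have := Nat.le_of_dvd (by omega) h3
      omega
    obtain ⟨π, hπ⟩ := exists_pi (r := r) hz _ ht ht1
    have h1 := pi_jac hp hz q hq hq1 χ hχ c n hc.1 hn hc.2 π hπ
    have h2 := ker_pi hp hz q c hc.1 π hπ _ h1
    exact (dva_mem _ _).1 h2

end H5FA
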