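import Pool.Agent.H5.FA.Bas

/-!
# [H5 FA GRA] the ring `RR O r = O[X]/(1 + X + ... + X^(r-1))`

`fr O r` is monic of degree `r - 1` (`O` nontrivial, `r ≥ 1`).
* `rho_pow`: `(X - 1) fr = X^r - 1` (`geom_sum_mul`). `rho_val`: `rho^((x + y).val) = rho^x.val * rho^y.val` (`ZMod.val_add`, `pow_mod`).
* `rho_sum`: multiplication by `c ≠ 0` permutes `ZMod r`, and `∑_x rho^x.val = ∑_{i<r} rho^i = 0`.
* `alg_dvd`: `AdjoinRoot.powerBasis'` (monic): the coordinates of `algebraMap y` are `(y, 0, ..., 0)` (dimension `r - 1 ≥ 1`); or: `C y - C d * h = fr * g` with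
  `h` reduced modulo `fr` (`degree h < r - 1`), degrees give `g = 0`. `alg_reg`: coordinates again, `O` is a domain.
* `alg_inj`: from `alg_reg`-like argument (coordinates).
-/

/-!
# [H5 FA GRA] the ring `RR O r = O[X]/(1 + X + ... + X^(r-1))`

`fr O r` is monic of degree `r - 1` (`O` nontrivial, `r ≥ 1`).
* `rho_pow`: `(X - 1) fr = X^r - 1` (`geom_sum_mul`). `rho_val`: `rho^((x + y).val) = rho^x.val * rho^y.val` (`ZMod.val_add`, `pow_mod`).
* `rho_sum`: multiplication by `c ≠ 0` permutes `ZMod r`, and `∑_x rho^x.val = ∑_{i<r} rho^i = 0`.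
* `alg_dvd`: `AdjoinRoot.powerBasis'` (monic): the coordinates of `algebraMap y` are `(y, 0, ..., 0)` (dimension `r - 1 ≥ 1`); or: `C y - C d * h = fr * g` with
  `h` reduced modulo `fr` (`degree h < r - 1`), degrees give `g = 0`. `alg_reg`: coordinates again, `O` is a domain.
* `alg_inj`: from `alg_reg`-like argument (coordinates).
-/

namespace H5FA

open Finset Polynomial

variable {O : Type} [CommRing O]

private theorem fr_mul (O : Type) [CommRing O] (r : ℕ) : fr O r * (X - C 1) = X ^ r - C 1 := by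
  unfold fr
  rw [C_1]
  exact geom_sum_mul X r

theorem fr_monic [Nontrivial O] {r : ℕ} (hr : 2 ≤ r) : (fr O r).Monic ∧ (fr O r).natDegree = r - 1 := by
  have h1 : (fr O r).Monic := monic_geom_sum_X (by omega)
  refine ⟨h1, ?_⟩
  have h2 := congrArg natDegree (fr_mul O r)
  rw [h1.natDegree_mul (monic_X_sub_C 1), natDegree_X_sub_C, natDegree_X_pow_sub_C] at h2
  omega

private theorem mk_pow_sub (O : Type) [CommRing O] (r : ℕ) : AdjoinRoot.mk (fr O r) (X ^ r - C 1) = 0 := by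
  rw [← fr_mul, map_mul, AdjoinRoot.mk_self, zero_mul]

theorem rho_pow (O : Type) [CommRing O] (r : ℕ) : rho O r ^ r = 1 := by
  have h := mk_pow_sub O r
  rw [map_sub, map_pow, AdjoinRoot.mk_X, C_1, map_one, sub_eq_zero] at h
  exact h

theorem rho_val (O : Type) [CommRing O] (r : ℕ) [Fact r.Prime] (x y : ZMod r) :
    rho O r ^ (x + y).val = rho O r ^ x.val * rho O r ^ y.val := by
  rw [ZMod.val_add, ← pow_eq_pow_mod _ (rho_pow O r), pow_add]

private theorem sum_val (r : ℕ) [Fact r.Prime] {A : Type} [AddCommMonoid A] (f : ℕ → A) :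
    ∑ x : ZMod r, f x.val = ∑ i ∈ range r, f i := by
  refine Finset.sum_bij (fun x _ => x.val) (fun x _ => Finset.mem_range.2 (ZMod.val_lt x)) (fun x _ y _ h => ZMod.val_injective r h)
    (fun i hi => ⟨(i : ZMod r), Finset.mem_univ _, ZMod.val_cast_of_lt (Finset.mem_range.1 hi)⟩) (fun x _ => rfl)

theorem rho_sum (O : Type) [CommRing O] (r : ℕ) [Fact r.Prime] (c : ZMod r) (hc : c ≠ 0) :
    ∑ x : ZMod r, rho O r ^ (c * x).val = 0 := by
  have h1 : ∑ x : ZMod r, rho O r ^ (c * x).val = ∑ x : ZMod r, rho O r ^ x.val :=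
    Fintype.sum_equiv (Equiv.mulLeft₀ c hc) _ _ (fun x => rfl)
  rw [h1, sum_val r (fun i => rho O r ^ i)]
  have h2 : AdjoinRoot.mk (fr O r) (fr O r) = ∑ i ∈ range r, rho O r ^ i := by
    show AdjoinRoot.mk (fr O r) (∑ i ∈ range r, X ^ i) = _
    rw [map_sum]
    apply Finset.sum_congr rfl
    intro i _
    rw [map_pow]
    rfl
  rw [← h2, AdjoinRoot.mk_self]

private theorem mod_C [IsDomain O] (r : ℕ) [Fact r.Prime] (y : O) : (C y) %ₘ (fr O r) = C y := by
  have hr := (Fact.out : r.Prime).two_le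
  obtain ⟨h1, h2⟩ := fr_monic (O := O) hr
  rw [modByMonic_eq_self_iff h1]
  refine lt_of_le_of_lt degree_C_le ?_
  rw [degree_eq_natDegree h1.ne_zero, h2]
  exact_mod_cast (by omega : 0 < r - 1)

theorem alg_dvd [IsDomain O] (r : ℕ) [Fact r.Prime] (d y : O)
    (h : algebraMap O (RR O r) d ∣ algebraMap O (RR O r) y) : d ∣ y := by
  have hr := (Fact.out : r.Prime).two_le
  obtain ⟨h1, h2⟩ := fr_monic (O := O) hr
  obtain ⟨t, ht⟩ := h
  obtain ⟨g, rfl⟩ := AdjoinRoot.mk_surjective t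
  have h3 : AdjoinRoot.mk (fr O r) (C y) = AdjoinRoot.mk (fr O r) (C d * g) := by
    rw [map_mul]
    exact ht
  rw [AdjoinRoot.mk_eq_mk, ← modByMonic_eq_zero_iff_dvd h1, sub_modByMonic, sub_eq_zero, mod_C, ← smul_eq_C_mul, smul_modByMonic] at h3
  refine ⟨(g %ₘ fr O r).coeff 0, ?_⟩
  have h4 := congrArg (fun f => coeff f 0) h3
  simp only [coeff_C_zero, coeff_smul, smul_eq_mul] at h4
  exact h4

theorem alg_reg [IsDomain O] (r : ℕ) [Fact r.Prime] (d : O) (hd : d ≠ 0) (t : RR O r)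
    (h : algebraMap O (RR O r) d * t = 0) : t = 0 := by
  have hr := (Fact.out : r.Prime).two_le
  obtain ⟨h1, h2⟩ := fr_monic (O := O) hr
  obtain ⟨g, rfl⟩ := AdjoinRoot.mk_surjective t
  have h3 : AdjoinRoot.mk (fr O r) (C d * g) = 0 := by
    rw [map_mul]
    exact h
  rw [AdjoinRoot.mk_eq_zero, ← modByMonic_eq_zero_iff_dvd h1, ← smul_eq_C_mul, smul_modByMonic] at h3
  rw [AdjoinRoot.mk_eq_zero, ← modByMonic_eq_zero_iff_dvd h1]
  exact (smul_eq_zero.1 h3).resolve_left hd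

end H5FA
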