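import Pool.Agent.H5.FA.Gra

/-!
# [H5 FA GRB] products of Gauss sums in `RR O r`

* `gs_mul`: `gs χ * gs φ = ∑_{x,y} χ(x) φ(y) rho^(x+y)` (`rho_val`); collect by `s = x + y`: for `s ≠ 0` substitute `x = s u`: `∑_u χ(su) φ(s(1-u)) = (χφ)(s) J(χ,φ)`;
  for `s = 0`: `∑_x χ(x) φ(-x) = φ(-1) ∑_x (χφ)(x) = 0` (`MulChar.sum_eq_zero_of_ne_one`, `O` is a domain), and `(χφ)(0) = 0`. Compare Mathlib's proof of
  `jacobiSum_mul_nontrivial` (`Mathlib/NumberTheory/JacobiSum/Basic.lean`), which needs a domain as target; here only the values of the characters lie in a domain.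
* `gs_inv`: the same with `φ = χ⁻¹`: for `s ≠ 0` the coefficient is `∑_u χ(u) χ⁻¹(1 - u) = -χ(-1)` (`jacobiSum_nontrivial_inv`), for `s = 0` it is `∑_{x ≠ 0} χ⁻¹(-1) = χ(-1) (r - 1)`
  (`χ(-1)² = 1`); so `gs χ * gs χ⁻¹ = χ(-1) (r - 1 - ∑_{s ≠ 0} rho^s) = χ(-1) (r - 1 + 1)` by `rho_sum` with `c = 1`.
* `gs_pow`: induction as in Mathlib's `gaussSum_pow_eq_prod_jacobiSum`: `gs χ ^ n = (∏_{j ∈ Ico 1 n} J(χ, χ^j)) gs (χ^n)` for `1 ≤ n < p`, then `n = p - 1` times `gs χ`, `χ^(p-1) = χ⁻¹`,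
  `gs_inv`, `χ(-1) = 1`: `χ(-1)^p = 1` and `χ(-1)^2 = 1`, `p` odd.
-/

/-!
# [H5 FA GRB] products of Gauss sums in `RR O r`

* `gs_mul`: `gs χ * gs φ = ∑_{x,y} χ(x) φ(y) rho^(x+y)` (`rho_val`); collect by `s = x + y`: for `s ≠ 0` substitute `x = s u`: `∑_u χ(su) φ(s(1-u)) = (χφ)(s) J(χ,φ)`;
  for `s = 0`: `∑_x χ(x) φ(-x) = φ(-1) ∑_x (χφ)(x) = 0` (`MulChar.sum_eq_zero_of_ne_one`, `O` is a domain), and `(χφ)(0) = 0`. Compare Mathlib's proof of
  `jacobiSum_mul_nontrivial` (`Mathlib/NumberTheory/JacobiSum/Basic.lean`), which needs a domain as target; here only the values of the characters lie in a domain.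
* `gs_inv`: the same with `φ = χ⁻¹`: for `s ≠ 0` the coefficient is `∑_u χ(u) χ⁻¹(1 - u) = -χ(-1)` (`jacobiSum_nontrivial_inv`), for `s = 0` it is `∑_{x ≠ 0} χ⁻¹(-1) = χ(-1) (r - 1)`
  (`χ(-1)² = 1`); so `gs χ * gs χ⁻¹ = χ(-1) (r - 1 - ∑_{s ≠ 0} rho^s) = χ(-1) (r - 1 + 1)` by `rho_sum` with `c = 1`.
* `gs_pow`: induction as in Mathlib's `gaussSum_pow_eq_prod_jacobiSum`: `gs χ ^ n = (∏_{j ∈ Ico 1 n} J(χ, χ^j)) gs (χ^n)` for `1 ≤ n < p`, then `n = p - 1` times `gs χ`, `χ^(p-1) = χ⁻¹`,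
  `gs_inv`, `χ(-1) = 1`: `χ(-1)^p = 1` and `χ(-1)^2 = 1`, `p` odd.
-/

namespace H5FA

open Finset Polynomial

variable {O : Type} [CommRing O] [IsDomain O] {r : ℕ} [Fact r.Prime]

omit [IsDomain O] in
private theorem gs_conv (χ φ : MulChar (ZMod r) O) :
    gs χ * gs φ = ∑ s : ZMod r, algebraMap O (RR O r) (∑ x : ZMod r, χ x * φ (s - x)) * rho O r ^ s.val := by
  unfold gs
  rw [Finset.sum_mul_sum]
  have h1 : ∀ x : ZMod r, ∑ y : ZMod r, algebraMap O (RR O r) (χ x) * rho O r ^ x.val * (algebraMap O (RR O r) (φ y) * rho O r ^ y.val) =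
      ∑ s : ZMod r, algebraMap O (RR O r) (χ x * φ (s - x)) * rho O r ^ s.val := by
    intro x
    refine Fintype.sum_equiv (Equiv.addRight x) _ _ (fun y => ?_)
    rw [Equiv.coe_addRight, add_sub_cancel_right, rho_val, map_mul]
    ring
  rw [Finset.sum_congr rfl (fun x _ => h1 x), Finset.sum_comm]
  apply Finset.sum_congr rfl
  intro s _
  rw [map_sum, Finset.sum_mul]

omit [IsDomain O] in
private theorem coef (χ φ : MulChar (ZMod r) O) {s : ZMod r} (hs : s ≠ 0) :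
    ∑ x : ZMod r, χ x * φ (s - x) = (χ * φ) s * jacobiSum χ φ := by
  rw [← Equiv.sum_comp (Equiv.mulLeft₀ s hs), jacobiSum, Finset.mul_sum]
  apply Finset.sum_congr rfl
  intro u _
  show χ (s * u) * φ (s - s * u) = _
  rw [← mul_one_sub, map_mul, map_mul, MulChar.mul_apply]
  ring

omit [IsDomain O] in
private theorem coef0 (χ φ : MulChar (ZMod r) O) :
    ∑ x : ZMod r, χ x * φ (0 - x) = φ (-1) * ∑ x : ZMod r, (χ * φ) x := by
  rw [Finset.mul_sum]
  apply Finset.sum_congr rfl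
  intro x _
  rw [zero_sub, neg_eq_neg_one_mul x, map_mul, MulChar.mul_apply]
  ring

theorem gs_mul (χ φ : MulChar (ZMod r) O) (h : χ * φ ≠ 1) :
    gs χ * gs φ = algebraMap O (RR O r) (jacobiSum χ φ) * gs (χ * φ) := by
  rw [gs_conv, gs, Finset.mul_sum]
  apply Finset.sum_congr rfl
  intro s _
  have h1 : ∑ x : ZMod r, χ x * φ (s - x) = (χ * φ) s * jacobiSum χ φ := by
    by_cases hs : s = 0
    · rw [hs, coef0, MulChar.sum_eq_zero_of_ne_one h, MulChar.map_zero]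
      ring
    · exact coef χ φ hs
  rw [h1, map_mul]
  ring

theorem gs_inv (χ : MulChar (ZMod r) O) (h : χ ≠ 1) :
    gs χ * gs χ⁻¹ = algebraMap O (RR O r) (χ (-1)) * (r : RR O r) := by
  have h1 : ∀ s : ZMod r, ∑ x : ZMod r, χ x * χ⁻¹ (s - x) = -χ (-1) + (if s = 0 then χ (-1) * (r : O) else 0) := by
    intro s
    by_cases hs : s = 0
    · rw [hs, coef0, if_pos rfl, mul_inv_cancel, MulChar.sum_one_eq_card_units, MulChar.inv_apply', inv_neg_one]
      have h2 : (Fintype.card (ZMod r)ˣ : O) = (r : O) - 1 := by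
        rw [ZMod.card_units r, Nat.cast_sub (Fact.out : r.Prime).one_le, Nat.cast_one]
      rw [h2]
      ring
    · rw [coef χ χ⁻¹ hs, if_neg hs, jacobiSum_nontrivial_inv h, mul_inv_cancel, MulChar.one_apply (isUnit_iff_ne_zero.2 hs)]
      ring
  rw [gs_conv]
  have h2 : ∀ s : ZMod r, algebraMap O (RR O r) (∑ x : ZMod r, χ x * χ⁻¹ (s - x)) * rho O r ^ s.val =
      algebraMap O (RR O r) (-χ (-1)) * rho O r ^ (1 * s).val + (if s = 0 then algebraMap O (RR O r) (χ (-1)) * (r : RR O r) else 0) := by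
    intro s
    rw [h1 s, map_add, add_mul, one_mul]
    congr 1
    by_cases hs : s = 0
    · rw [if_pos hs, if_pos hs, hs, ZMod.val_zero, pow_zero, mul_one, map_mul, map_natCast]
    · rw [if_neg hs, if_neg hs, map_zero, zero_mul]
  rw [Finset.sum_congr rfl (fun s _ => h2 s), Finset.sum_add_distrib, ← Finset.mul_sum, rho_sum O r 1 one_ne_zero, mul_zero, zero_add,
    Finset.sum_ite_eq' Finset.univ (0 : ZMod r), if_pos (Finset.mem_univ _)]

theorem chi_neg_one {p : ℕ} (hp : p.Prime) (hp2 : 2 < p) (χ : MulChar (ZMod r) O) (h : orderOf χ = p) : χ (-1) = 1 := by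
  have h1 : χ (-1) ^ 2 = 1 := by
    rw [← map_pow, neg_one_sq, map_one]
  have h2 : χ (-1) ^ p = 1 := by
    rw [← MulChar.pow_apply' χ hp.ne_zero, ← h, pow_orderOf_eq_one, MulChar.one_apply isUnit_one.neg]
  obtain ⟨k, hk⟩ := hp.odd_of_ne_two (by omega)
  rw [hk, pow_add, pow_mul, h1, one_pow, one_mul, pow_one] at h2
  exact h2

theorem gs_pow {p : ℕ} (hp : p.Prime) (hp2 : 2 < p) (χ : MulChar (ZMod r) O) (h : orderOf χ = p) :
    gs χ ^ p = algebraMap O (RR O r) (Gj p r χ) := by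
  have h1 : ∀ n : ℕ, 1 ≤ n → n ≤ p - 1 →
      gs χ ^ n = algebraMap O (RR O r) (∏ j ∈ Ico 1 n, jacobiSum χ (χ ^ j)) * gs (χ ^ n) := by
    intro n hn
    induction n, hn using Nat.le_induction with
    | base => intro _; simp
    | succ n hn ih =>
      intro hn2
      have h2 : χ * χ ^ n ≠ 1 := by
        rw [← pow_succ']
        intro h3
        have h4 := orderOf_dvd_of_pow_eq_one h3
        rw [h] at h4
        have := Nat.le_of_dvd (by omega) h4
        omega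
      rw [pow_succ, ih (by omega), Finset.prod_Ico_succ_top hn, map_mul, mul_assoc, mul_comm (gs (χ ^ n)) (gs χ), gs_mul χ (χ ^ n) h2,
        ← pow_succ']
      ring
  have h2 : χ ≠ 1 := by
    intro h3
    rw [h3, orderOf_one] at h
    omega
  have h3 : χ ^ (p - 1) = χ⁻¹ := by
    rw [eq_inv_iff_mul_eq_one, ← pow_succ, Nat.sub_add_cancel hp.one_le, ← h, pow_orderOf_eq_one]
  have h4 : gs χ ^ p = gs χ ^ (p - 1) * gs χ := by
    rw [← pow_succ, Nat.sub_add_cancel hp.one_le]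
  rw [h4, h1 (p - 1) (by omega) le_rfl, h3, mul_assoc, mul_comm (gs χ⁻¹) (gs χ), gs_inv χ h2, chi_neg_one hp hp2 χ h, map_one, one_mul, Gj,
    map_mul, map_natCast, mul_comm]

end H5FA
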