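import Pool.Agent.H5.FA.Gra

/-!
# [H5 FA GRC] the Frobenius endomorphism of `RR O r`

* `exists_Phi`: `AdjoinRoot.liftAlgHom` (or `AdjoinRoot.lift`) with `root ↦ rho^p`; `fr (rho^p) = ∑_{i<r} rho^(p i) = ∑_{x : ZMod r} rho^((p x).val) = 0` (`rho_sum`, `(p : ZMod r) ≠ 0`).
* `Phi_gs`: `Φ (gs χ) = ∑_x χ(x) rho^(p x) = ∑_y χ(p⁻¹ y) rho^y = χ(p)⁻¹ gs χ = gs χ` (`χ(p) = 1`; `rho^(p * x.val) = rho^((p x).val)` by `rho_pow`).
* `Phi_frob`: the set of `y` with `(1-z) ∣ Φ y - y^p` contains `algebraMap a` (`a ≡ n` modulo `1 - z` with `n : ℤ` by `bas_res`, `n^p ≡ n` modulo `p`, `1 - z ∣ p` by `bas_p`: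
  so `1 - z ∣ a - a^p`), contains `rho` (`Φ rho = rho^p`), is closed under products, and under sums: `(x + y)^p - x^p - y^p` is divisible by `p`
  (`add_pow_le...`: `exists_add_pow_prime_eq`), hence by `1 - z`. Induction: `AdjoinRoot.induction_on` and `Polynomial.induction_on`.
-/

namespace H5FA

open Finset Polynomial

variable {O : Type} [CommRing O] {p r : ℕ} [Fact r.Prime]

private theorem grc_ne {p r : ℕ} [Fact r.Prime] (hp : p.Prime) (hpr : p ≠ r) : (p : ZMod r) ≠ 0 := by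
  intro h
  rw [ZMod.natCast_eq_zero_iff] at h
  have hr : r.Prime := Fact.out
  exact hpr ((Nat.prime_dvd_prime_iff_eq hr hp).1 h).symm

private theorem grc_pow (x : ZMod r) : (rho O r ^ p) ^ x.val = rho O r ^ ((p : ZMod r) * x).val := by
  rw [← pow_mul]
  have h1 : ((p : ZMod r) * x).val = (p * x.val) % r := by
    rw [← ZMod.val_natCast]
    push_cast
    rw [ZMod.natCast_zmod_val]
  rw [h1, ← pow_eq_pow_mod _ (rho_pow O r)]

private theorem grc_sum {E : Type} [AddCommMonoid E] (f : ℕ → E) :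
    ∑ i ∈ range r, f i = ∑ x : ZMod r, f x.val := by
  refine Finset.sum_nbij' (fun i => (i : ZMod r)) (fun x => x.val) ?_ ?_ ?_ ?_ ?_
  · intro i _
    exact mem_univ _
  · intro x _
    exact mem_range.2 (ZMod.val_lt x)
  · intro i hi
    exact ZMod.val_cast_of_lt (mem_range.1 hi)
  · intro x _
    exact ZMod.natCast_zmod_val x
  · intro i hi
    rw [ZMod.val_cast_of_lt (mem_range.1 hi)]

private theorem grc_eval {S : Type} [CommRing S] (i : O →+* S) (x : S) :
    (fr O r).eval₂ i x = ∑ k ∈ range r, x ^ k := by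
  unfold fr
  rw [eval₂_finsetSum]
  simp only [eval₂_X_pow]

theorem exists_Phi (hp : p.Prime) (hpr : p ≠ r) : ∃ Φ : RR O r →ₐ[O] RR O r, Φ (rho O r) = rho O r ^ p := by
  have h : (fr O r).eval₂ ((Algebra.ofId O (RR O r)) : O →+* RR O r) (rho O r ^ p) = 0 := by
    rw [grc_eval, grc_sum (r := r) (fun i => (rho O r ^ p) ^ i)]
    rw [← rho_sum O r (p : ZMod r) (grc_ne hp hpr)]
    exact Finset.sum_congr rfl fun x _ => grc_pow x
  exact ⟨AdjoinRoot.liftAlgHom (fr O r) (Algebra.ofId O (RR O r)) (rho O r ^ p) h,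
    AdjoinRoot.liftAlgHom_root _ _ _ h⟩

theorem Phi_gs (hp : p.Prime) (hpr : p ≠ r) (Φ : RR O r →ₐ[O] RR O r) (hΦ : Φ (rho O r) = rho O r ^ p)
    (χ : MulChar (ZMod r) O) (h : χ (p : ZMod r) = 1) : Φ (gs χ) = gs χ := by
  have h0 := grc_ne (r := r) hp hpr
  unfold gs
  rw [map_sum]
  have h1 : ∀ x : ZMod r, Φ (algebraMap O (RR O r) (χ x) * rho O r ^ x.val) =
      algebraMap O (RR O r) (χ ((p : ZMod r) * x)) * rho O r ^ ((p : ZMod r) * x).val := by
    intro x
    rw [map_mul, map_pow, hΦ, AlgHom.commutes, grc_pow, map_mul, h, one_mul]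
  rw [Finset.sum_congr rfl fun x _ => h1 x]
  exact (mulLeft_bijective₀ (p : ZMod r) h0).sum_comp
    (fun y => algebraMap O (RR O r) (χ y) * rho O r ^ y.val)

theorem Phi_frob [IsDomain O] {z : O} (hp : p.Prime) (hz : Cyc p z) (Φ : RR O r →ₐ[O] RR O r)
    (hΦ : Φ (rho O r) = rho O r ^ p) (y : RR O r) : algebraMap O (RR O r) (1 - z) ∣ Φ y - y ^ p := by
  have h2 := hp.two_le
  obtain ⟨v, _, hv, _⟩ := bas_p hp hz
  have hzp : (1 - z) ∣ (p : O) := by
    rw [hv]
    exact (dvd_pow_self _ (by omega)).mul_left _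
  have hzp' : algebraMap O (RR O r) (1 - z) ∣ (p : RR O r) := by
    have := map_dvd (algebraMap O (RR O r)) hzp
    rwa [map_natCast] at this
  have hadd : ∀ x y : RR O r, algebraMap O (RR O r) (1 - z) ∣ Φ x - x ^ p →
      algebraMap O (RR O r) (1 - z) ∣ Φ y - y ^ p →
      algebraMap O (RR O r) (1 - z) ∣ Φ (x + y) - (x + y) ^ p := by
    intro x y hx hy
    obtain ⟨t, ht⟩ := exists_add_pow_prime_eq hp x y
    rw [ht, map_add]
    have e : Φ x + Φ y - (x ^ p + y ^ p + p * x * y * t) =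
        (Φ x - x ^ p) + (Φ y - y ^ p) - p * (x * y * t) := by ring
    rw [e]
    exact dvd_sub (dvd_add hx hy) (hzp'.mul_right _)
  have hmul : ∀ x y : RR O r, algebraMap O (RR O r) (1 - z) ∣ Φ x - x ^ p →
      algebraMap O (RR O r) (1 - z) ∣ Φ y - y ^ p →
      algebraMap O (RR O r) (1 - z) ∣ Φ (x * y) - (x * y) ^ p := by
    intro x y hx hy
    rw [map_mul, mul_pow]
    have e : Φ x * Φ y - x ^ p * y ^ p = (Φ x - x ^ p) * Φ y + x ^ p * (Φ y - y ^ p) := by ring
    rw [e]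
    exact dvd_add (hx.mul_right _) (hy.mul_left _)
  have halg : ∀ a : O, algebraMap O (RR O r) (1 - z) ∣
      Φ (algebraMap O (RR O r) a) - (algebraMap O (RR O r) a) ^ p := by
    intro a
    rw [AlgHom.commutes, ← map_pow, ← map_sub]
    refine map_dvd (algebraMap O (RR O r)) ?_
    obtain ⟨n, hn⟩ := bas_res hz a
    have h3 : (1 - z) ∣ a ^ p - (n : O) ^ p := hn.trans (sub_dvd_pow_sub_pow a (n : O) p)
    have h4 : (1 - z) ∣ (n : O) ^ p - (n : O) := by
      haveI : Fact p.Prime := ⟨hp⟩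
      have h5 : (p : ℤ) ∣ n ^ p - n := by
        rw [← ZMod.intCast_zmod_eq_zero_iff_dvd]
        push_cast
        rw [ZMod.pow_card, sub_self]
      obtain ⟨c, hc⟩ := h5
      have h6 : (n : O) ^ p - (n : O) = (p : O) * (c : O) := by
        have := congrArg (Int.cast : ℤ → O) hc
        push_cast at this
        exact this
      rw [h6]
      exact hzp.mul_right _
    have e : a - a ^ p = (a - n) - (a ^ p - (n : O) ^ p) - ((n : O) ^ p - n) := by ring
    rw [e]
    exact dvd_sub (dvd_sub hn h3) h4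
  have hrho : algebraMap O (RR O r) (1 - z) ∣ Φ (rho O r) - (rho O r) ^ p := by
    rw [hΦ, sub_self]
    exact dvd_zero _
  induction y using AdjoinRoot.induction_on with
  | ih f =>
    induction f using Polynomial.induction_on with
    | C a => exact halg a
    | add f g hf hg =>
      rw [map_add]
      exact hadd _ _ hf hg
    | monomial n a hf =>
      rw [pow_succ, ← mul_assoc, map_mul]
      exact hmul _ _ hf hrho

end H5FA
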