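import Pool.Agent.H5.FA.Grb
import Pool.Agent.H5.FA.Grc

/-!
# [H5 FA GRD] the `p`-th power of the Gauss sum is a `p`-th power modulo `(1-z)^(p+1)`

Write `l = algebraMap (1 - z)`, `g = gs χ`, `G = Gj p r χ`, `Φ` as in `exists_Phi` (`p ≠ r` as `r % p = 1`, `p > 2`).
1. `G ≡ a` modulo `1 - z` with `a : ℤ` (`bas_res`). `g ≡ g^p` modulo `l` (`Phi_frob`, `Phi_gs`), `g^p = algebraMap G` (`gs_pow`), so `g = a + l t` for some `t`.
2. `p ∤ a`: otherwise `l ∣ g` (`1 - z ∣ p` by `bas_p`), so `l ∣ gs χ * gs χ⁻¹ = ± r` (`gs_inv`, `chi_neg_one`), `1 - z ∣ r` (`alg_dvd`), `p ∣ r` (`bas_int`), but `r % p = 1`.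
3. `Φ g = g` gives `l (Φ t - t) = 0`, so `Φ t = t` (`alg_reg`, `bas_ne`), so `l ∣ t - t^p` (`Phi_frob`).
4. `(a + l t)^p = a^p + p a^(p-1) l t + (∑_{2 ≤ k ≤ p-1} C(p,k) a^(p-k) l^k t^k) + l^p t^p`. `p = v l^(p-1)` (`bas_p`), so the middle sum is divisible by `p l^2`, hence by `l^(p+1)`, and
   `p a^(p-1) l t = v a^(p-1) l^p t ≡ - l^p t` modulo `l^(p+1)` (`v ≡ -1` modulo `l`, `a^(p-1) ≡ 1` modulo `p`, `l ∣ p`). So `g^p ≡ a^p + l^p (t^p - t) ≡ a^p` modulo `l^(p+1)`.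
   (For step 4 prove first a lemma for an arbitrary commutative ring: if `p = v l^(p-1)`, `v = -1 + l s`, `A^(p-1) = 1 + l s'`, `t^p - t = l s''` then `l^(p+1) ∣ (A + l t)^p - A^p`.)
5. `algebraMap ((1-z)^(p+1)) ∣ algebraMap (G - a^p)`, so `(1-z)^(p+1) ∣ G - a^p` (`alg_dvd`).
-/

namespace H5FA

open Finset Polynomial

theorem step4 {R : Type} [CommRing R] {p : ℕ} (hp : p.Prime) (hp2 : 2 < p) (l v s s' s'' A t : R)
    (h1 : (p : R) = v * l ^ (p - 1)) (h2 : v = -1 + l * s) (h3 : A ^ (p - 1) = 1 + l * s') (h4 : t ^ p - t = l * s'') :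
    l ^ (p + 1) ∣ (A + l * t) ^ p - A ^ p := by
  obtain ⟨m, rfl⟩ : ∃ m, p = m + 3 := ⟨p - 3, by omega⟩
  have e0 : (A + l * t) ^ (m + 3) - A ^ (m + 3) =
      (∑ k ∈ range (m + 1), (l * t) ^ (k + 2) * A ^ (m + 3 - (k + 2)) * ((m + 3).choose (k + 2) : R)) +
      ((m + 3 : ℕ) : R) * A ^ (m + 3 - 1) * (l * t) + (l * t) ^ (m + 3) := by
    rw [add_comm A, add_pow, Finset.sum_range_succ, Finset.sum_range_succ', Finset.sum_range_succ']
    simp only [Nat.choose_self, Nat.sub_self, pow_zero, Nat.sub_zero, Nat.choose_zero_right, zero_add, Nat.choose_one_right]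
    have e1 : ∀ k : ℕ, k + 1 + 1 = k + 2 := fun k => rfl
    simp only [e1]
    push_cast
    ring
  rw [e0]
  have hmid : l ^ (m + 3 + 1) ∣ ∑ k ∈ range (m + 1), (l * t) ^ (k + 2) * A ^ (m + 3 - (k + 2)) * ((m + 3).choose (k + 2) : R) := by
    apply Finset.dvd_sum
    intro k hk
    rw [mem_range] at hk
    obtain ⟨c, hc⟩ := hp.dvd_choose_self (k := k + 2) (by omega) (by omega)
    rw [hc]
    push_cast
    push_cast at h1
    rw [h1, mul_pow, pow_add l k 2]
    exact ⟨l ^ k * t ^ (k + 2) * A ^ (m + 1 - k) * v * c, by ring⟩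
  have hrest : l ^ (m + 3 + 1) ∣ ((m + 3 : ℕ) : R) * A ^ (m + 3 - 1) * (l * t) + (l * t) ^ (m + 3) := by
    rw [h1, h3, h2, mul_pow]
    have e2 : m + 3 - 1 = m + 2 := rfl
    rw [e2]
    refine ⟨s'' + t * (s - s' + l * s * s'), ?_⟩
    linear_combination l ^ (m + 3) * h4
  rw [add_assoc (∑ k ∈ range (m + 1), (l * t) ^ (k + 2) * A ^ (m + 3 - (k + 2)) * ((m + 3).choose (k + 2) : R))]
  exact dvd_add hmid hrest

theorem gauss_cong {O : Type} [CommRing O] [IsDomain O] {z : O} {p r : ℕ} [Fact r.Prime] (hp : p.Prime) (hp2 : 2 < p)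
    (hz : Cyc p z) (hr : r % p = 1) (χ : MulChar (ZMod r) O) (h : orderOf χ = p) (hχ : χ (p : ZMod r) = 1) :
    ∃ a : ℤ, (1 - z) ^ (p + 1) ∣ Gj p r χ - (a : O) ^ p := by
  haveI : Fact p.Prime := ⟨hp⟩
  have hpr : p ≠ r := by
    rintro rfl
    rw [Nat.mod_self] at hr
    omega
  obtain ⟨Φ, hΦ⟩ := exists_Phi (O := O) hp hpr
  obtain ⟨v, s, hv, hs⟩ := bas_p hp hz
  have hne := bas_ne hp hz
  have hχ1 : χ ≠ 1 := by
    rintro rfl
    rw [orderOf_one] at h
    omega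
  set l : RR O r := algebraMap O (RR O r) (1 - z) with hl
  have hlp : l ∣ (p : RR O r) := by
    have h1 : (1 - z) ∣ (p : O) := by
      rw [hv]
      exact (dvd_pow_self _ (by omega)).mul_left _
    have := map_dvd (algebraMap O (RR O r)) h1
    rwa [map_natCast] at this
  obtain ⟨a, ha⟩ := bas_res hz (Gj p r χ)
  have hg : l ∣ gs χ - (a : RR O r) := by
    have h1 := Phi_frob hp hz Φ hΦ (gs χ)
    rw [Phi_gs hp hpr Φ hΦ χ hχ, gs_pow hp hp2 χ h] at h1
    have h2 := map_dvd (algebraMap O (RR O r)) ha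
    rw [map_sub _ (Gj p r χ), map_intCast] at h2
    have e : gs χ - (a : RR O r) = (gs χ - algebraMap O (RR O r) (Gj p r χ)) + (algebraMap O (RR O r) (Gj p r χ) - (a : RR O r)) := by ring
    rw [e]
    exact dvd_add h1 h2
  obtain ⟨t, ht⟩ := hg
  have hpa : ¬ (p : ℤ) ∣ a := by
    rintro ⟨c, rfl⟩
    have h1 : l ∣ gs χ := by
      have e : gs χ = l * t + (p : RR O r) * (c : RR O r) := by
        rw [← ht]
        push_cast
        ring
      rw [e]
      exact dvd_add (dvd_mul_right _ _) (hlp.mul_right _)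
    have h2 : l ∣ gs χ * gs χ⁻¹ := h1.mul_right _
    rw [gs_inv χ hχ1, chi_neg_one hp hp2 χ h, map_one, one_mul] at h2
    have h3 : algebraMap O (RR O r) (1 - z) ∣ algebraMap O (RR O r) (r : O) := by
      rwa [map_natCast]
    have h4 := alg_dvd r _ _ h3
    have h5 := bas_int hp hz (r : ℤ) (by push_cast; exact h4)
    have h6 : p ∣ r := by exact_mod_cast h5
    have := Nat.mod_eq_zero_of_dvd h6
    omega
  have hΦt : Φ t = t := by
    have h1 : Φ (gs χ - (a : RR O r)) = gs χ - (a : RR O r) := by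
      rw [map_sub, Phi_gs hp hpr Φ hΦ χ hχ, map_intCast]
    rw [ht, map_mul, hl, AlgHom.commutes] at h1
    have h2 : algebraMap O (RR O r) (1 - z) * (Φ t - t) = 0 := by
      rw [mul_sub, h1, sub_self]
    exact sub_eq_zero.1 (alg_reg r _ hne _ h2)
  have htp : l ∣ t - t ^ p := by
    have h1 := Phi_frob hp hz Φ hΦ t
    rwa [hΦt] at h1
  obtain ⟨w, hw⟩ := htp
  have hfer : ∃ s' : RR O r, (a : RR O r) ^ (p - 1) = 1 + l * s' := by
    have h1 : (p : ℤ) ∣ a ^ (p - 1) - 1 := by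
      have h2 := Int.ModEq.pow_card_sub_one_eq_one hp (n := a) (by
        rw [Int.isCoprime_iff_gcd_eq_one, Int.gcd_comm]
        have := (Nat.Prime.coprime_iff_not_dvd hp (n := a.natAbs)).2 (by
          intro hh
          exact hpa (Int.natCast_dvd.2 hh))
        simpa [Int.gcd] using this)
      exact (Int.modEq_iff_dvd.1 h2.symm)
    obtain ⟨c, hc⟩ := h1
    obtain ⟨d, hd⟩ := hlp
    refine ⟨d * c, ?_⟩
    have h3 : (a : RR O r) ^ (p - 1) - 1 = (p : RR O r) * (c : RR O r) := by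
      have := congrArg (Int.cast : ℤ → RR O r) hc
      push_cast at this
      exact this
    rw [hd] at h3
    linear_combination h3
  obtain ⟨s', hs'⟩ := hfer
  have hfin := step4 (R := RR O r) hp hp2 l (algebraMap O (RR O r) v) (algebraMap O (RR O r) s) s' (-w) (a : RR O r) t
    (by
      have := congrArg (algebraMap O (RR O r)) hv
      rw [map_natCast, map_mul, map_pow] at this
      exact this)
    (by
      rw [hs, map_add, map_mul, map_neg, map_one])
    hs'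
    (by linear_combination -hw)
  refine ⟨a, ?_⟩
  apply alg_dvd r
  rw [map_pow, map_sub _ (Gj p r χ), map_pow, map_intCast, ← gs_pow hp hp2 χ h]
  have e : gs χ = (a : RR O r) + l * t := by rw [← ht]; ring
  rw [e]
  exact hfin

end H5FA
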