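import Pool.Agent.H5.FA.Defs

/-!
# [H5 FA IV] the inverse modulo `p` (elementary)

* `iv_facts`: `1 ≤ iv p c ≤ p - 1`, `c * iv p c ≡ 1` modulo `p` (`iv p c = ((c : ZMod p)⁻¹).val`). `iv_iv`: `iv p` is an involution of `Icc 1 (p-1)`; `iv_sub`: `iv p (p - c) = p - iv p c`.
* `card_n`: `n ↦ (c n) mod p` is injective on `[1, p-1]` with values in `[1, p-1]`; `n = p - 1` gives `p - c`, so the `n ∈ [1, p-2]` with value `≥ p - c` correspond to the
  values `p - c + 1, ..., p - 1`: `c - 1` of them.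
-/

namespace H5FA

open Finset Polynomial

variable {p : ℕ}

theorem cz_ne (hp : p.Prime) {c : ℕ} (hc : c ∈ Icc 1 (p - 1)) : (c : ZMod p) ≠ 0 := by
  rw [mem_Icc] at hc
  intro h
  rw [ZMod.natCast_eq_zero_iff] at h
  have := Nat.le_of_dvd (by omega) h
  have := hp.two_le
  omega

theorem iv_facts (hp : p.Prime) {c : ℕ} (hc : c ∈ Icc 1 (p - 1)) :
    iv p c ∈ Icc 1 (p - 1) ∧ (c * iv p c) % p = 1 := by
  haveI : Fact p.Prime := ⟨hp⟩
  have h0 := cz_ne hp hc
  have h1 : ((c : ZMod p)⁻¹) ≠ 0 := inv_ne_zero h0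
  have hlt : iv p c < p := ZMod.val_lt _
  have hpos : iv p c ≠ 0 := by
    unfold iv
    rwa [Ne, ZMod.val_eq_zero]
  refine ⟨?_, ?_⟩
  · rw [mem_Icc]; omega
  · have h2 : ((c * iv p c : ℕ) : ZMod p) = ((1 : ℕ) : ZMod p) := by
      push_cast
      unfold iv
      rw [ZMod.natCast_val, ZMod.cast_id', id, mul_inv_cancel₀ h0]
    rw [ZMod.natCast_eq_natCast_iff'] at h2
    rw [h2, Nat.mod_eq_of_lt hp.one_lt]

theorem iv_iv (hp : p.Prime) {c : ℕ} (hc : c ∈ Icc 1 (p - 1)) : iv p (iv p c) = c := by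
  haveI : Fact p.Prime := ⟨hp⟩
  rw [mem_Icc] at hc
  have := hp.two_le
  unfold iv
  rw [ZMod.natCast_val, ZMod.cast_id', id, inv_inv, ZMod.val_natCast, Nat.mod_eq_of_lt (by omega)]

theorem iv_sub (hp : p.Prime) {c : ℕ} (hc : c ∈ Icc 1 (p - 1)) : iv p (p - c) = p - iv p c := by
  haveI : Fact p.Prime := ⟨hp⟩
  have h0 := cz_ne hp hc
  have hf := iv_facts hp hc
  have hc' := mem_Icc.1 hc
  have := hp.two_le
  have e : ((p - c : ℕ) : ZMod p) = -(c : ZMod p) := by
    rw [Nat.cast_sub (by omega)]; simp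
  unfold iv
  rw [e, inv_neg, ZMod.neg_val]
  rw [if_neg (inv_ne_zero h0)]

theorem card_n (hp : p.Prime) {c : ℕ} (hc : c ∈ Icc 1 (p - 1)) :
    ((Ico 1 (p - 1)).filter (fun n => ¬ c + (c * n) % p < p)).card = c - 1 := by
  haveI : Fact p.Prime := ⟨hp⟩
  have h0 := cz_ne hp hc
  have hc' := mem_Icc.1 hc
  have h2 := hp.two_le
  have hcop : Nat.Coprime p c := by
    rw [Nat.Prime.coprime_iff_not_dvd hp]
    intro h
    exact h0 ((ZMod.natCast_eq_zero_iff _ _).2 h)
  have key : (c * (p - 1)) % p = p - c := by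
    have h1 : ((c * (p - 1) : ℕ) : ZMod p) = ((p - c : ℕ) : ZMod p) := by
      rw [Nat.cast_sub (by omega : c ≤ p)]
      push_cast [Nat.cast_sub (by omega : 1 ≤ p)]
      simp
    rw [ZMod.natCast_eq_natCast_iff'] at h1
    rw [h1, Nat.mod_eq_of_lt (by omega)]
  have inj : ∀ a b : ℕ, a < p → b < p → (c * a) % p = (c * b) % p → a = b := by
    intro a b ha hb hab
    have h3 : a ≡ b [MOD p] := Nat.ModEq.cancel_left_of_coprime (by simpa using hcop) hab
    have := Nat.ModEq.eq_of_lt_of_lt h3 ha hb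
    exact this
  have : ((Ico 1 (p - 1)).filter (fun n => ¬ c + (c * n) % p < p)).card = (Ico (p - c + 1) p).card := by
    apply Finset.card_bij (fun n _ => (c * n) % p)
    · intro n hn
      rw [mem_filter, mem_Ico] at hn
      rw [mem_Ico]
      have hlt : (c * n) % p < p := Nat.mod_lt _ (by omega)
      refine ⟨?_, hlt⟩
      have hne : (c * n) % p ≠ p - c := by
        intro h
        have := inj n (p - 1) (by omega) (by omega) (h.trans key.symm)
        omega
      omega
    · intro a ha b hb hab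
      rw [mem_filter, mem_Ico] at ha hb
      exact inj a b (by omega) (by omega) hab
    · intro m hm
      rw [mem_Ico] at hm
      refine ⟨((m : ZMod p) * (c : ZMod p)⁻¹).val, ?_, ?_⟩
      · have hval : (c * ((m : ZMod p) * (c : ZMod p)⁻¹).val) % p = m := by
          have h1 : ((c * ((m : ZMod p) * (c : ZMod p)⁻¹).val : ℕ) : ZMod p) = (m : ZMod p) := by
            push_cast
            rw [ZMod.natCast_val, ZMod.cast_id', id]
            field_simp
          rw [ZMod.natCast_eq_natCast_iff'] at h1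
          rw [h1, Nat.mod_eq_of_lt (by omega)]
        rw [mem_filter, mem_Ico, hval]
        have hlt : ((m : ZMod p) * (c : ZMod p)⁻¹).val < p := ZMod.val_lt _
        refine ⟨⟨?_, ?_⟩, by omega⟩
        · rcases Nat.eq_zero_or_pos (((m : ZMod p) * (c : ZMod p)⁻¹).val) with h | h
          · rw [h] at hval; simp at hval; omega
          · exact h
        · rcases Nat.lt_or_ge (((m : ZMod p) * (c : ZMod p)⁻¹).val) (p - 1) with h | h
          · exact h
          · have e : ((m : ZMod p) * (c : ZMod p)⁻¹).val = p - 1 := by omega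
            rw [e, key] at hval
            omega
      · have h1 : ((c * ((m : ZMod p) * (c : ZMod p)⁻¹).val : ℕ) : ZMod p) = (m : ZMod p) := by
          push_cast
          rw [ZMod.natCast_val, ZMod.cast_id', id]
          field_simp
        rw [ZMod.natCast_eq_natCast_iff'] at h1
        rw [h1, Nat.mod_eq_of_lt (by omega)]
  rw [this, Nat.card_Ico]
  omega

end H5FA
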