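import Pool.Agent.H5.FA.Pi

/-!
# [H5 FA JC] the Jacobi sums modulo the primes above `r`

* `pow_sum`: expand `(1 - x)^j` by the binomial theorem; every exponent of `x` lies in `[i, i + j]`, `0 < i`, `i + j < r - 1`, and `∑_x x^k = 0` for `k < r - 1`
  (`FiniteField.sum_pow_lt_card_sub_one`).
* `pi_jac`: `J(χ, χ^n) = ∑_x χ(x) χ(1-x)^n`, the terms `x = 0, 1` are `0`. For `x ≠ 0`, `χ x = z^j`, `q^j = x^e`, `e = (r-1)/p`, so `π (χ x) = q^(c j) = x^(c e)`; so
  `π J = ∑_x x^(c e) (1-x)^(c n e)` and `(1 - x)^(c n e) = (1-x)^(m e)`, `m = c n mod p`, for `x ≠ 1` (`(1-x)^(p e) = 1`), `m ≥ 1` because `p ∤ c n`; at `x = 1` and `x = 0` both sides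
  vanish (`c e, m e > 0`; `e > 0` as `p ∣ r - 1`: `q` has order `p`). `c e + m e < p e = r - 1`, `pow_sum`.
-/

namespace H5FA

open Finset Polynomial

variable {p : ℕ} {O : Type} [CommRing O] {z : O} {r : ℕ} [Fact r.Prime]

theorem pow_sum (i j : ℕ) (hi : 0 < i) (h : i + j < r - 1) : ∑ x : ZMod r, x ^ i * (1 - x) ^ j = 0 := by
  have h1 : ∀ x : ZMod r, x ^ i * (1 - x) ^ j =
      ∑ k ∈ range (j + 1), ((-1) ^ (j - k) * (j.choose k : ZMod r)) * x ^ (i + (j - k)) := by
    intro x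
    rw [sub_eq_add_neg, add_pow, mul_sum]
    refine sum_congr rfl fun k _ => ?_
    rw [one_pow, one_mul, neg_pow x, pow_add]
    ring
  simp_rw [h1]
  rw [sum_comm]
  refine sum_eq_zero fun k _ => ?_
  rw [← mul_sum, FiniteField.sum_pow_lt_card_sub_one, mul_zero]
  rw [ZMod.card]
  omega

theorem pi_jac (hp : p.Prime) (hz : Cyc p z) (q : ℕ) (hq : (q : ZMod r) ^ p = 1) (hq1 : (q : ZMod r) ≠ 1)
    (χ : MulChar (ZMod r) O) (hχ : Chr p q r z χ) (c n : ℕ) (hc : c ∈ Icc 1 (p - 1)) (hn : n ∈ Ico 1 (p - 1))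
    (hcn : c + (c * n) % p < p) (π : O →+* ZMod r) (hπ : π z = (q : ZMod r) ^ c) :
    π (jacobiSum χ (χ ^ n)) = 0 := by
  have hr := (Fact.out : r.Prime)
  have hr2 := hr.two_le
  rw [mem_Icc] at hc
  rw [mem_Ico] at hn
  have hp2 := hp.two_le
  -- p divides r - 1
  have hq0 : (q : ZMod r) ≠ 0 := by
    intro h
    rw [h, zero_pow hp.ne_zero] at hq
    exact zero_ne_one hq
  have hord : orderOf (q : ZMod r) = p := by
    haveI : Fact p.Prime := ⟨hp⟩
    exact orderOf_eq_prime hq hq1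
  have hdvd : p ∣ r - 1 := by
    rw [← hord]
    exact orderOf_dvd_of_pow_eq_one (ZMod.pow_card_sub_one_eq_one hq0)
  obtain ⟨e, he⟩ := hdvd
  have hep : 0 < e := by
    rcases Nat.eq_zero_or_pos e with h | h
    · rw [h, mul_zero] at he
      omega
    · exact h
  have hdiv : (r - 1) / p = e := by
    rw [he, Nat.mul_div_cancel_left _ hp.pos]
  have hchi : ∀ x : ZMod r, π (χ x) = x ^ (c * e) := by
    intro x
    by_cases hx : x = 0
    · rw [hx, MulChar.map_zero, map_zero, zero_pow]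
      exact Nat.mul_ne_zero (by omega) (by omega)
    · obtain ⟨j, h1, h2⟩ := hχ.val x hx
      rw [hdiv] at h2
      rw [h1, map_pow, hπ, ← pow_mul, mul_comm c j, pow_mul, h2, ← pow_mul, mul_comm e c]
  obtain ⟨m, hm⟩ : ∃ m, m = (c * n) % p := ⟨_, rfl⟩
  rw [← hm] at hcn
  have hm1 : 0 < m := by
    rcases Nat.eq_zero_or_pos m with h | h
    · rw [h] at hm
      have h3 : p ∣ c * n := Nat.dvd_of_mod_eq_zero hm.symm
      rcases hp.dvd_mul.1 h3 with h4 | h4
      · exact absurd (Nat.le_of_dvd (by omega) h4) (by omega)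
      · exact absurd (Nat.le_of_dvd (by omega) h4) (by omega)
    · exact h
  have hchn : ∀ x : ZMod r, π ((χ ^ n) (1 - x)) = (1 - x) ^ (m * e) := by
    intro x
    rw [MulChar.pow_apply' χ (by omega : n ≠ 0), map_pow, hchi, ← pow_mul]
    by_cases hx : 1 - x = 0
    · rw [hx, zero_pow (Nat.mul_ne_zero (Nat.mul_ne_zero (by omega) (by omega)) (by omega)),
        zero_pow (Nat.mul_ne_zero (by omega) (by omega))]
    · have h1 : c * e * n = (r - 1) * (c * n / p) + m * e := by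
        have h2 := Nat.div_add_mod (c * n) p
        rw [← hm] at h2
        rw [he]
        calc c * e * n = (c * n) * e := by ring
          _ = (p * (c * n / p) + m) * e := by rw [h2]
          _ = _ := by ring
      rw [h1, pow_add, pow_mul, ZMod.pow_card_sub_one_eq_one hx, one_pow, one_mul]
  unfold jacobiSum
  rw [map_sum]
  simp_rw [map_mul, hchi, hchn]
  apply pow_sum
  · exact Nat.mul_pos (by omega) hep
  · rw [← add_mul, he]
    exact Nat.mul_lt_mul_of_pos_right hcn hep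

end H5FA
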