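import Pool.Agent.H5.FA.Prd

/-!
# [H5 FA KAA] `p`-th powers of `q - w`

* `pow_Ep`: binomial theorem, `p * (C(p,k)/p) = C(p,k)` for `0 < k < p`, `p` odd: `(q - w)^p = q^p - w^p - p Ep p q w`.
* `Ep_near`: `Ep(w) ≡ Ep(1)` modulo `(1 - z)^2` for `w = z^b`: `w^k - 1 = (w - 1)(1 + w + ... + w^(k-1)) ≡ k (w - 1)` modulo `(w-1)^2`, `1 - z ∣ w - 1`. So
  `Ep(w) - Ep(1) ≡ (w - 1) ∑_k ek k q^(p-k)` modulo `(1-z)^2`; in `ℤ`: `ek p k * k = (-1)^(k+1) C(p-1,k-1) ≡ 1` modulo `p`, `∑_{k=1}^{p-1} q^(p-k) = (q^p - q)/(q - 1)`, i.e.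
  `(q - 1) ∑ q^(p-k) = q^p - q ≡ 0` modulo `p`, `p ∤ q - 1`: the integer `∑_k ek k q^(p-k)` is divisible by `p`, and `(1-z)^2 ∣ p` (`bas_p`, `p - 1 ≥ 2`).
* `lam_assoc`: `1 - z^k` is associated to `1 - z` for `1 ≤ k < p` (each divides the other: `z = (z^k)^k'`), and `∏_{k=1}^{p-1} (1 - z^k) = p` (`bas_prim`); or from
  Mathlib: `IsPrimitiveRoot` and `geom_sum` units.
-/

namespace H5FA

open Finset Polynomial

variable {p : ℕ} {O : Type} [CommRing O] {z : O}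

theorem kaa_choose (hp : p.Prime) (j : ℕ) (hj : j < p) : (((p - 1).choose j : ℕ) : ZMod p) = (-1) ^ j := by
  induction j with
  | zero => simp
  | succ n ih =>
    have h1 := ih (by omega)
    have h2 : p.choose (n + 1) = (p - 1).choose n + (p - 1).choose (n + 1) := by
      obtain ⟨m, hm⟩ : ∃ m, p = m + 1 := ⟨p - 1, by omega⟩
      rw [hm]
      exact Nat.choose_succ_succ _ _
    have h3 : ((p.choose (n + 1) : ℕ) : ZMod p) = 0 := by
      rw [ZMod.natCast_eq_zero_iff]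
      exact hp.dvd_choose_self (by omega) hj
    rw [h2] at h3
    push_cast at h3
    rw [h1] at h3
    rw [pow_succ]
    linear_combination h3

theorem kaa_div (hp : p.Prime) {k : ℕ} (hk : k ∈ Ico 1 p) : p * (p.choose k / p) = p.choose k := by
  rw [mem_Ico] at hk
  exact Nat.mul_div_cancel' (hp.dvd_choose_self (by omega) hk.2)

theorem kaa_ek (hp : p.Prime) {k : ℕ} (hk : k ∈ Ico 1 p) : (ek p k : ZMod p) * (k : ZMod p) = 1 := by
  have h0 := kaa_div hp hk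
  rw [mem_Ico] at hk
  obtain ⟨j, hj⟩ : ∃ j, k = j + 1 := ⟨k - 1, by omega⟩
  have h1 : p * (p - 1).choose j = p.choose k * k := by
    obtain ⟨m, hm⟩ : ∃ m, p = m + 1 := ⟨p - 1, by omega⟩
    rw [hm, hj]
    exact Nat.add_one_mul_choose_eq _ _
  have h2 : (p.choose k / p) * k = (p - 1).choose j := by
    apply Nat.eq_of_mul_eq_mul_left hp.pos
    rw [h1, ← mul_assoc, h0]
  have h3 : (((p.choose k / p : ℕ)) : ZMod p) * (k : ZMod p) = (-1) ^ j := by
    rw [← kaa_choose hp j (by omega), ← h2]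
    push_cast
    ring
  unfold ek
  rw [Int.cast_mul, Int.cast_pow, Int.cast_neg, Int.cast_one, Int.cast_natCast, mul_assoc, h3, hj, ← pow_add]
  have : j + 1 + 1 + j = 2 * (j + 1) := by ring
  rw [this, pow_mul]
  norm_num

theorem kaa_sum (hp : p.Prime) (q : ℕ) (hq1 : ¬ (p : ℤ) ∣ (q : ℤ) - 1) :
    (p : ℤ) ∣ ∑ k ∈ Ico 1 p, ek p k * (q : ℤ) ^ (p - k) * (k : ℤ) := by
  haveI : Fact p.Prime := ⟨hp⟩
  rw [← ZMod.intCast_zmod_eq_zero_iff_dvd]
  push_cast
  have h1 : ∑ k ∈ Ico 1 p, (ek p k : ZMod p) * (q : ZMod p) ^ (p - k) * (k : ZMod p) = ∑ k ∈ Ico 1 p, (q : ZMod p) ^ (p - k) := by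
    apply Finset.sum_congr rfl
    intro k hk
    have := kaa_ek hp hk
    linear_combination ((q : ZMod p) ^ (p - k)) * this
  rw [h1]
  have h2 : ∑ k ∈ Ico 1 p, (q : ZMod p) ^ (p - k) = ∑ k ∈ Ico 1 p, (q : ZMod p) ^ k := by
    apply Finset.sum_nbij' (fun k => p - k) (fun k => p - k)
    · intro a ha; simp only [mem_Ico] at ha ⊢; omega
    · intro a ha; simp only [mem_Ico] at ha ⊢; omega
    · intro a ha; simp only [mem_Ico] at ha ⊢; omega
    · intro a ha; simp only [mem_Ico] at ha ⊢; omega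
    · intro a ha; rfl
  rw [h2]
  have h3 : (∑ k ∈ Ico 1 p, (q : ZMod p) ^ k) * ((q : ZMod p) - 1) = 0 := by
    rw [geom_sum_Ico_mul _ hp.one_lt.le, ZMod.pow_card, pow_one, sub_self]
  rcases mul_eq_zero.1 h3 with h | h
  · exact h
  · exfalso
    apply hq1
    rw [← ZMod.intCast_zmod_eq_zero_iff_dvd]
    push_cast
    exact h

theorem kaa_pow (x : O) (k : ℕ) : ∃ s : O, (1 + x) ^ k = 1 + (k : O) * x + x ^ 2 * s := by
  induction k with
  | zero => exact ⟨0, by simp⟩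
  | succ n ih =>
    obtain ⟨s, hs⟩ := ih
    refine ⟨(n : O) + s * (1 + x), ?_⟩
    rw [pow_succ, hs]
    push_cast
    ring

theorem pow_Ep (hp : p.Prime) (hp2 : 2 < p) (q : ℕ) (w : O) :
    ((q : O) - w) ^ p = (q : O) ^ p - w ^ p - (p : O) * Ep p q w := by
  have hodd : Odd p := by
    rcases hp.eq_two_or_odd' with h | h
    · omega
    · exact h
  have h0 : ((q : O) - w) = -w + q := by ring
  rw [h0, add_pow, Finset.sum_range_succ, ← Finset.sum_range_add_sum_Ico _ (show 1 ≤ p by omega)]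
  rw [Finset.sum_range_one]
  simp only [pow_zero, one_mul, Nat.sub_zero, Nat.choose_zero_right, Nat.cast_one, mul_one, Nat.sub_self,
    Nat.choose_self]
  rw [hodd.neg_pow]
  unfold Ep
  rw [Finset.mul_sum]
  have h1 : ∑ k ∈ Ico 1 p, (-w) ^ k * (q : O) ^ (p - k) * (p.choose k : O) =
      - ∑ k ∈ Ico 1 p, (p : O) * ((ek p k : O) * (q : O) ^ (p - k) * w ^ k) := by
    rw [← Finset.sum_neg_distrib]
    apply Finset.sum_congr rfl
    intro k hk
    have h2 := kaa_div hp hk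
    have h3 : (p.choose k : O) = (p : O) * ((p.choose k / p : ℕ) : O) := by
      rw [← Nat.cast_mul, h2]
    rw [h3]
    unfold ek
    rw [Int.cast_mul, Int.cast_pow, Int.cast_neg, Int.cast_one, Int.cast_natCast, neg_pow w k, pow_succ]
    ring
  rw [h1]
  ring

theorem lam_one (hp : p.Prime) (hz : Cyc p z) {b : ℕ} (hb : b ∈ Icc 1 (p - 1)) : (1 - z ^ b) ∣ (1 - z) := by
  obtain ⟨h1, h2⟩ := iv_facts hp hb
  have h3 : z ^ (b * iv p b) = z := by
    conv_lhs => rw [← Nat.div_add_mod (b * iv p b) p, h2, pow_add, pow_mul, hz.pow, one_pow, one_mul, pow_one]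
  have h4 := sub_dvd_pow_sub_pow 1 (z ^ b) (iv p b)
  rw [one_pow, ← pow_mul, h3] at h4
  exact h4

theorem lam_one' (b : ℕ) : (1 - z) ∣ (1 - z ^ b) := by
  have h4 := sub_dvd_pow_sub_pow 1 z b
  rw [one_pow] at h4
  exact h4

theorem lam_assoc [IsDomain O] (hp : p.Prime) (hz : Cyc p z) : Associated ((p : ℕ) : O) ((1 - z) ^ (p - 1)) := by
  have h1 := congrArg (eval (1 : O)) (prd_poly hp hz)
  rw [eval_prod, eval_finsetSum] at h1
  simp only [eval_sub, eval_X, eval_C, eval_pow, one_pow, Finset.sum_const, Finset.card_range, nsmul_eq_mul,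
    mul_one] at h1
  rw [← h1]
  have h2 : (1 - z) ^ (p - 1) = ∏ b ∈ Icc 1 (p - 1), (1 - z) := by
    rw [Finset.prod_const, Nat.card_Icc]
    congr 1
  rw [h2]
  apply Associated.prod
  intro b hb
  exact associated_of_dvd_dvd (lam_one hp hz hb) (lam_one' b)

theorem Ep_near [IsDomain O] (hp : p.Prime) (hp2 : 2 < p) (hz : Cyc p z) (q : ℕ) (hq1 : ¬ (p : ℤ) ∣ (q : ℤ) - 1) (b : ℕ) :
    (1 - z) ^ 2 ∣ Ep p q (z ^ b) - Ep p q (1 : O) := by
  obtain ⟨t, ht⟩ := lam_one' (z := z) b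
  have hx : z ^ b = 1 + (1 - z) * (-t) := by linear_combination (-1 : O) * ht
  choose s hs using fun k : ℕ => kaa_pow ((1 - z) * (-t)) k
  obtain ⟨n, hn⟩ := kaa_sum hp q hq1
  have hpl : (1 - z) ∣ (p : O) := by
    obtain ⟨v, s, h1, -⟩ := bas_p hp hz
    rw [h1]
    exact Dvd.dvd.mul_left (dvd_pow_self _ (by omega)) _
  obtain ⟨y, hy⟩ := hpl
  have h1 : Ep p q (z ^ b) - Ep p q (1 : O) =
      ((1 - z) * (-t)) * ((∑ k ∈ Ico 1 p, ek p k * (q : ℤ) ^ (p - k) * (k : ℤ) : ℤ) : O) +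
      (1 - z) ^ 2 * (t ^ 2 * ∑ k ∈ Ico 1 p, (ek p k : O) * (q : O) ^ (p - k) * s k) := by
    unfold Ep
    rw [← Finset.sum_sub_distrib]
    push_cast
    rw [Finset.mul_sum, Finset.mul_sum, Finset.mul_sum, ← Finset.sum_add_distrib]
    apply Finset.sum_congr rfl
    intro k _
    rw [one_pow, hx, hs k]
    ring
  rw [h1, hn]
  push_cast
  rw [hy]
  exact ⟨(-t) * (y * (n : O)) + (t ^ 2 * ∑ k ∈ Ico 1 p, (ek p k : O) * (q : O) ^ (p - k) * s k), by ring⟩

end H5FA
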