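import Pool.Agent.H5.FA.Grd
import Pool.Agent.H5.FA.Dv
import Pool.Agent.H5.FA.Chi
import Pool.Agent.H5.FA.Ab

/-!
# [H5 FA LC] the local element (assembly)

`r ∣ Aq p q` gives `q^p = 1` in `ZMod r` (`(q - 1) Aq = q^p - 1`) and `q ≠ 1` in `ZMod r` (else `Aq = p` in `ZMod r`, so `r ∣ p`, `r = p`). So `q` has order `p`, `p ∣ r - 1`, `r % p = 1`.
`χ` from `exists_chi`, `G = Gj p r χ`; `χ(p) = χ(y)^p = (χ^p)(y) = 1` (`χ^p = 1`, `y ≠ 0` because `p ≠ 0` in `ZMod r`). `cong`: `gauss_cong`; `dvd`: `G_dvd`; `abs`: `abs_G`.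
-/

namespace H5FA

open Finset Polynomial

variable {p : ℕ} {O : Type} [CommRing O] [IsDomain O] {z : O} {r : ℕ} [Fact r.Prime]

theorem loc_exists (hp : p.Prime) (hp2 : 2 < p) (hz : Cyc p z) (hpr : p ≠ r) (q : ℕ) (hr : r ∣ Aq p q)
    (hy : ∃ y : ZMod r, (p : ZMod r) = y ^ p) : ∃ G : O, Loc p q r z G := by
  have hrp : r.Prime := Fact.out
  have hs : ∑ k ∈ range p, (q : ZMod r) ^ k = 0 := by
    have h1 : ((Aq p q : ℕ) : ZMod r) = 0 := (ZMod.natCast_eq_zero_iff _ _).2 hr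
    unfold Aq at h1
    push_cast at h1
    exact h1
  have hq : (q : ZMod r) ^ p = 1 := by
    have h1 := mul_geom_sum (q : ZMod r) p
    rw [hs, mul_zero] at h1
    exact (sub_eq_zero.1 h1.symm)
  have hp0 : (p : ZMod r) ≠ 0 := by
    intro h
    have h1 := (ZMod.natCast_eq_zero_iff _ _).1 h
    exact hpr ((Nat.prime_dvd_prime_iff_eq hrp hp).1 h1).symm
  have hq1 : (q : ZMod r) ≠ 1 := by
    intro h
    rw [h] at hs
    simp only [one_pow, sum_const, card_range, nsmul_eq_mul, mul_one] at hs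
    exact hp0 hs
  have hq0 : (q : ZMod r) ≠ 0 := by
    intro h
    rw [h, zero_pow hp.ne_zero] at hq
    exact zero_ne_one hq
  have hmod : r % p = 1 := by
    have : Fact p.Prime := ⟨hp⟩
    have h1 := orderOf_eq_prime hq hq1
    have h2 := ZMod.orderOf_dvd_card_sub_one hq0
    rw [h1] at h2
    obtain ⟨k, hk⟩ := h2
    have h3 := hrp.one_lt
    have h4 : r = 1 + p * k := by omega
    rw [h4, Nat.add_mul_mod_self_left]
    exact Nat.mod_eq_of_lt hp.one_lt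
  obtain ⟨χ, hχ⟩ := exists_chi hp hz q hq hq1
  have hχp : χ (p : ZMod r) = 1 := by
    obtain ⟨y, hy⟩ := hy
    have hy0 : y ≠ 0 := by
      rintro rfl
      rw [zero_pow hp.ne_zero] at hy
      exact hp0 hy
    have h1 : χ ^ p = 1 := by
      have := pow_orderOf_eq_one χ
      rwa [hχ.ord] at this
    have h2 : (χ ^ p) y = 1 := by
      rw [h1]
      exact MulChar.one_apply (isUnit_iff_ne_zero.2 hy0)
    rw [hy, map_pow, ← MulChar.pow_apply' χ hp.ne_zero, h2]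
  exact ⟨Gj p r χ, gauss_cong hp hp2 hz hmod χ hχ.ord hχp,
    fun v hv => G_dvd hp hp2 hz hpr q hq hq1 χ hχ v hv, fun σ => abs_G hp hp2 hz q χ hχ σ⟩

end H5FA
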