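import Pool.Agent.H5.FA.Prd

/-!
# [H5 FA PI] ring homomorphisms `O → ℤ/r`

* `exists_pi`: `aeval z : ℤ[X] → O` is surjective (`gen`) with kernel `(Φ)`, `Φ = ∑_{k<p} X^k` (`ker`, `sum`); `aeval t : ℤ[X] → ZMod r` kills `Φ` because `(t - 1) Φ(t) = t^p - 1 = 0`, `t ≠ 1`.
  Lift (`RingHom.liftOfSurjective` or the like).
* `ker_pi`: let `I = (r, yy p q c z)`, `b = iv p c`, so `z^b ≡ q` modulo `I` and `z = z^(b c) ≡ q^c` modulo `I` (`c b ≡ 1` modulo `p`, `z^p = 1`). `x = f(z)`, so `x ≡ f(q^c)` modulo `I`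
  (the integer `f(q^c)`), and `π x = f(q^c)` in `ZMod r`, so `r ∣ f(q^c)`.
-/

namespace H5FA

open Finset Polynomial

variable {p : ℕ} {O : Type} [CommRing O] {z : O} {r : ℕ} [Fact r.Prime]

theorem exists_pi (hz : Cyc p z) (t : ZMod r) (ht : t ^ p = 1) (ht1 : t ≠ 1) : ∃ π : O →+* ZMod r, π z = t := by
  have hs : Function.Surjective ((aeval z : ℤ[X] →ₐ[ℤ] O) : ℤ[X] →+* O) := by
    intro x
    obtain ⟨f, hf⟩ := hz.gen x
    exact ⟨f, hf.symm⟩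
  have h0 : ∑ k ∈ range p, t ^ k = 0 := by
    have h1 := geom_sum_mul t p
    rw [ht, sub_self] at h1
    exact (mul_eq_zero.1 h1).resolve_right (sub_ne_zero.2 ht1)
  have hk : RingHom.ker ((aeval z : ℤ[X] →ₐ[ℤ] O) : ℤ[X] →+* O) ≤
      RingHom.ker ((aeval t : ℤ[X] →ₐ[ℤ] ZMod r) : ℤ[X] →+* ZMod r) := by
    intro f hf
    rw [RingHom.mem_ker] at hf ⊢
    obtain ⟨g, rfl⟩ := hz.ker f hf
    show aeval t ((∑ k ∈ range p, X ^ k) * g) = 0
    rw [map_mul, map_sum]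
    simp only [map_pow, aeval_X]
    rw [h0, zero_mul]
  refine ⟨RingHom.liftOfSurjective _ hs ⟨_, hk⟩, ?_⟩
  have h1 := RingHom.liftOfRightInverse_comp_apply
    ((aeval z : ℤ[X] →ₐ[ℤ] O) : ℤ[X] →+* O) _ (Function.rightInverse_surjInv hs) ⟨_, hk⟩ (X : ℤ[X])
  have h2 : ((aeval z : ℤ[X] →ₐ[ℤ] O) : ℤ[X] →+* O) X = z := aeval_X z
  have h3 : ((aeval t : ℤ[X] →ₐ[ℤ] ZMod r) : ℤ[X] →+* ZMod r) X = t := aeval_X t
  rw [h2] at h1
  exact h1.trans h3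

theorem ker_pi (hp : p.Prime) (hz : Cyc p z) (q c : ℕ) (hc : c ∈ Icc 1 (p - 1)) (π : O →+* ZMod r)
    (hπ : π z = (q : ZMod r) ^ c) (x : O) (hx : π x = 0) : x ∈ Ideal.span {(r : O), yy p q c z} := by
  obtain ⟨f, rfl⟩ := hz.gen x
  have h1 : z - (q : O) ^ c ∈ Ideal.span {(r : O), yy p q c z} := by
    have h2 := (iv_facts hp hc).2
    have h3 : z = (z ^ iv p c) ^ c := by
      rw [← pow_mul, mul_comm, pow_eq_pow_mod _ hz.pow, h2, pow_one]
    have h4 : yy p q c z ∣ z - (q : O) ^ c := by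
      have h5 : (z ^ iv p c) - (q : O) ∣ (z ^ iv p c) ^ c - (q : O) ^ c := sub_dvd_pow_sub_pow _ _ _
      rw [← h3] at h5
      unfold yy
      rwa [← neg_sub, neg_dvd]
    exact Ideal.mem_of_dvd _ h4 (Ideal.subset_span (by simp))
  have h2 : z - (q : O) ^ c ∣ aeval z f - ((f.eval ((q : ℤ) ^ c) : ℤ) : O) := by
    have h3 : ((f.eval ((q : ℤ) ^ c) : ℤ) : O) = aeval ((q : O) ^ c) f := by
      have h4 := Polynomial.aeval_algebraMap_apply O ((q : ℤ) ^ c) f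
      simp only [algebraMap_int_eq, eq_intCast, Int.cast_pow, Int.cast_natCast] at h4
      rw [h4]
      rfl
    rw [h3, aeval_def, aeval_def, eval₂_eq_eval_map, eval₂_eq_eval_map]
    exact sub_dvd_eval_sub _ _ _
  have h3 : (r : ℤ) ∣ f.eval ((q : ℤ) ^ c) := by
    rw [← ZMod.intCast_zmod_eq_zero_iff_dvd]
    have h4 : π (aeval z f) = ((f.eval ((q : ℤ) ^ c) : ℤ) : ZMod r) := by
      have h5 := map_dvd π h2
      rw [map_sub, map_sub, map_pow, map_natCast, hπ, sub_self, zero_dvd_iff, sub_eq_zero,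
        map_intCast] at h5
      exact h5
    rw [← h4, hx]
  have h4 : aeval z f = (aeval z f - ((f.eval ((q : ℤ) ^ c) : ℤ) : O)) +
      ((f.eval ((q : ℤ) ^ c) : ℤ) : O) := by ring
  rw [h4]
  refine Ideal.add_mem _ (Ideal.mem_of_dvd _ h2 h1) ?_
  obtain ⟨n, hn⟩ := h3
  rw [hn]
  push_cast
  exact Ideal.mul_mem_right _ _ (Ideal.subset_span (by simp))

end H5FA
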