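import Pool.Agent.H5.FA.Bas
import Pool.Agent.H5.FA.Iv

/-!
# [H5 FA PRD] the products `Vp`, `Vm`, `Pn`, `Qn`

* `prod_yy`: reindex by `iv`: `∏_{b=1}^{p-1} (q - z^b) = ∑_{k<p} q^k` (evaluate `∑_{k<p} X^k = ∏_{b=1}^{p-1} (X - z^b)` at `q`, see `bas_p`).
* `Vp_mul_Vm`: exponents `(p - c) + c = p`, `prod_yy`.
* `Pn_mul_Qn`: `prod_filter_mul_prod_filter_not`, `prod_yy`.
* `Vm_eq`: the exponent of `yy_c` on the right is `1 + #{n ∈ [1, p-2] : p ≤ c + (c n mod p)} = c` (`card_n`).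
-/

namespace H5FA

open Finset Polynomial

variable {p : ℕ} {O : Type} [CommRing O] {z : O}

theorem prd_poly [IsDomain O] (hp : p.Prime) (hz : Cyc p z) :
    ∏ b ∈ Icc 1 (p - 1), (X - C (z ^ b)) = ∑ k ∈ range p, (X : O[X]) ^ k := by
  classical
  haveI : NeZero p := ⟨hp.ne_zero⟩
  have hprim := bas_prim hp hz
  have h1 := X_pow_sub_one_eq_prod hp.pos hprim
  have h2 : nthRootsFinset p (1 : O) = (range p).image (fun k => z ^ k) := by
    ext x
    rw [mem_nthRootsFinset hp.pos, mem_image]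
    constructor
    · intro hx
      obtain ⟨i, hi, rfl⟩ := hprim.eq_pow_of_pow_eq_one hx
      exact ⟨i, mem_range.2 hi, rfl⟩
    · rintro ⟨k, -, rfl⟩
      rw [← pow_mul, mul_comm, pow_mul, hz.pow, one_pow]
  have hinj : Set.InjOn (fun k => z ^ k) (range p : Set ℕ) := by
    intro a ha b hb hab
    rw [mem_coe, mem_range] at ha hb
    exact hprim.pow_inj ha hb hab
  rw [h2, Finset.prod_image hinj] at h1
  obtain ⟨m, hm⟩ : ∃ m, p = m + 1 := ⟨p - 1, by have := hp.pos; omega⟩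
  have h3 : ∏ k ∈ range p, (X - C (z ^ k)) = (∏ b ∈ Icc 1 (p - 1), (X - C (z ^ b))) * (X - 1) := by
    conv_lhs => rw [show range p = range (m + 1) by rw [hm]]
    rw [Finset.prod_range_succ']
    simp only [pow_zero, map_one]
    congr 1
    have : Icc 1 (p - 1) = Ico 1 (m + 1) := by
      ext k
      simp only [mem_Icc, mem_Ico]
      omega
    rw [this, Finset.prod_Ico_eq_prod_range]
    apply Finset.prod_congr rfl
    intro k _
    rw [add_comm]
  rw [h3, ← geom_sum_mul] at h1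
  have hX : (X - 1 : O[X]) ≠ 0 := by
    have := X_sub_C_ne_zero (1 : O)
    simpa using this
  exact (mul_right_cancel₀ hX h1).symm

theorem prod_yy [IsDomain O] (hp : p.Prime) (hz : Cyc p z) (q : ℕ) :
    ∏ c ∈ Icc 1 (p - 1), yy p q c z = (Aq p q : O) := by
  have h1 : ∏ c ∈ Icc 1 (p - 1), yy p q c z = ∏ b ∈ Icc 1 (p - 1), ((q : O) - z ^ b) := by
    apply Finset.prod_nbij' (fun c => iv p c) (fun c => iv p c)
    · intro a ha; exact (iv_facts hp ha).1
    · intro a ha; exact (iv_facts hp ha).1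
    · intro a ha; exact iv_iv hp ha
    · intro a ha; exact iv_iv hp ha
    · intro a _; rfl
  rw [h1]
  have h2 := congrArg (eval (q : O)) (prd_poly hp hz)
  rw [eval_prod, eval_finset_sum] at h2
  simp only [eval_sub, eval_X, eval_C, eval_pow] at h2
  rw [h2]
  unfold Aq
  push_cast
  rfl

theorem Vp_mul_Vm [IsDomain O] (hp : p.Prime) (hz : Cyc p z) (q : ℕ) :
    Vp p q z * Vm p q z = (Aq p q : O) ^ p := by
  unfold Vp Vm
  rw [← Finset.prod_mul_distrib, ← prod_yy hp hz q, ← Finset.prod_pow]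
  apply Finset.prod_congr rfl
  intro c hc
  have := mem_Icc.1 hc
  rw [← pow_add]
  congr 1
  omega

theorem Pn_mul_Qn [IsDomain O] (hp : p.Prime) (hz : Cyc p z) (q n : ℕ) :
    Pn p q n z * Qn p q n z = (Aq p q : O) := by
  unfold Pn Qn
  rw [Finset.prod_filter_mul_prod_filter_not, prod_yy hp hz]

theorem Vm_eq [IsDomain O] (hp : p.Prime) (hz : Cyc p z) (q : ℕ) :
    Vm p q z = (Aq p q : O) * ∏ n ∈ Ico 1 (p - 1), Qn p q n z := by
  have h1 : ∏ n ∈ Ico 1 (p - 1), Qn p q n z = ∏ c ∈ Icc 1 (p - 1), yy p q c z ^ (c - 1) := by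
    unfold Qn
    have : ∀ n ∈ Ico 1 (p - 1), ∏ c ∈ (Icc 1 (p - 1)).filter (fun c => ¬ c + (c * n) % p < p), yy p q c z
        = ∏ c ∈ Icc 1 (p - 1), if ¬ c + (c * n) % p < p then yy p q c z else 1 := by
      intro n _
      rw [Finset.prod_filter]
    rw [Finset.prod_congr rfl this, Finset.prod_comm]
    apply Finset.prod_congr rfl
    intro c hc
    rw [← Finset.prod_filter, Finset.prod_const, card_n hp hc]
  rw [h1, ← prod_yy hp hz q, ← Finset.prod_mul_distrib]
  unfold Vm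
  apply Finset.prod_congr rfl
  intro c hc
  have := mem_Icc.1 hc
  rw [← pow_succ']
  congr 1
  omega

end H5FA
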